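import Mathlib

/-! Orders on subsets of a space whose order topology is the subspace topology. -/

set_option autoImplicit false

open Set Filter Topology

namespace Pool.Agent.D0H84.Galvin

variable {X : Type*} [TopologicalSpace X]

/-- `r` is a strict linear order on `Q` whose order topology is the subspace topology of `Q`. -/
structure LO (Q : Set X) (r : X → X → Prop) : Prop where
  irr : ∀ x ∈ Q, ¬ r x x
  trans : ∀ x ∈ Q, ∀ y ∈ Q, ∀ z ∈ Q, r x y → r y z → r x z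
  tot : ∀ x ∈ Q, ∀ y ∈ Q, x ≠ y → r x y ∨ r y x
  lo : ∀ x ∈ Q, ∀ a ∈ Q, r x a → ∀ᶠ y in 𝓝 x, y ∈ Q → r y a
  hi : ∀ x ∈ Q, ∀ a ∈ Q, r a x → ∀ᶠ y in 𝓝 x, y ∈ Q → r a y
  left : ∀ x ∈ Q, ∀ U ∈ 𝓝 x, (∃ y ∈ Q, r y x) →
    ∃ a ∈ Q, r a x ∧ ∀ y ∈ Q, r a y → r y x → y ∈ U
  right : ∀ x ∈ Q, ∀ U ∈ 𝓝 x, (∃ y ∈ Q, r x y) →
    ∃ a ∈ Q, r x a ∧ ∀ y ∈ Q, r x y → r y a → y ∈ U

namespace LO

variable {Q : Set X} {r s : X → X → Prop}

lemma asymm (h : LO Q r) {x y : X} (hx : x ∈ Q) (hy : y ∈ Q) (h1 : r x y) : ¬ r y x :=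
  fun h2 => h.irr x hx (h.trans x hx y hy x hx h1 h2)

lemma flip (h : LO Q r) : LO Q (fun x y => r y x) where
  irr := h.irr
  trans := fun x hx y hy z hz h1 h2 => h.trans z hz y hy x hx h2 h1
  tot := fun x hx y hy hne => (h.tot x hx y hy hne).symm
  lo := fun x hx a ha h1 => h.hi x hx a ha h1
  hi := fun x hx a ha h1 => h.lo x hx a ha h1
  left := fun x hx U hU he => by
    obtain ⟨a, ha, h1, h2⟩ := h.right x hx U hU he
    exact ⟨a, ha, h1, fun y hy h3 h4 => h2 y hy h4 h3⟩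
  right := fun x hx U hU he => by
    obtain ⟨a, ha, h1, h2⟩ := h.left x hx U hU he
    exact ⟨a, ha, h1, fun y hy h3 h4 => h2 y hy h4 h3⟩

lemma congr (h : LO Q r) (hrs : ∀ x ∈ Q, ∀ y ∈ Q, (r x y ↔ s x y)) : LO Q s where
  irr := fun x hx h1 => h.irr x hx ((hrs x hx x hx).2 h1)
  trans := fun x hx y hy z hz h1 h2 =>
    (hrs x hx z hz).1 (h.trans x hx y hy z hz ((hrs x hx y hy).2 h1) ((hrs y hy z hz).2 h2))
  tot := fun x hx y hy hne =>
    (h.tot x hx y hy hne).imp (hrs x hx y hy).1 (hrs y hy x hx).1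
  lo := fun x hx a ha h1 => by
    filter_upwards [h.lo x hx a ha ((hrs x hx a ha).2 h1)] with y hy hyQ
    exact (hrs y hyQ a ha).1 (hy hyQ)
  hi := fun x hx a ha h1 => by
    filter_upwards [h.hi x hx a ha ((hrs a ha x hx).2 h1)] with y hy hyQ
    exact (hrs a ha y hyQ).1 (hy hyQ)
  left := fun x hx U hU he => by
    obtain ⟨y, hy, hyx⟩ := he
    obtain ⟨a, ha, h1, h2⟩ := h.left x hx U hU ⟨y, hy, (hrs y hy x hx).2 hyx⟩
    exact ⟨a, ha, (hrs a ha x hx).1 h1,
      fun y hy h3 h4 => h2 y hy ((hrs a ha y hy).2 h3) ((hrs y hy x hx).2 h4)⟩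
  right := fun x hx U hU he => by
    obtain ⟨y, hy, hyx⟩ := he
    obtain ⟨a, ha, h1, h2⟩ := h.right x hx U hU ⟨y, hy, (hrs x hx y hy).2 hyx⟩
    exact ⟨a, ha, (hrs x hx a ha).1 h1,
      fun y hy h3 h4 => h2 y hy ((hrs x hx y hy).2 h3) ((hrs y hy a ha).2 h4)⟩

/-- Restriction to a convex subset. -/
lemma restrict (h : LO Q r) {A : Set X} (hA : A ⊆ Q)
    (hconv : ∀ x ∈ A, ∀ y ∈ A, ∀ z ∈ Q, r x z → r z y → z ∈ A) : LO A r where
  irr := fun x hx => h.irr x (hA hx)
  trans := fun x hx y hy z hz => h.trans x (hA hx) y (hA hy) z (hA hz)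
  tot := fun x hx y hy => h.tot x (hA hx) y (hA hy)
  lo := fun x hx a ha h1 => by
    filter_upwards [h.lo x (hA hx) a (hA ha) h1] with y hy hyA using hy (hA hyA)
  hi := fun x hx a ha h1 => by
    filter_upwards [h.hi x (hA hx) a (hA ha) h1] with y hy hyA using hy (hA hyA)
  left := fun x hx U hU he => by
    obtain ⟨y, hy, hyx⟩ := he
    obtain ⟨a, ha, h1, h2⟩ := h.left x (hA hx) U hU ⟨y, hA hy, hyx⟩
    by_cases hay : r y a
    · exact ⟨a, hconv y hy x hx a ha hay h1, h1, fun z hz => h2 z (hA hz)⟩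
    · refine ⟨y, hy, hyx, fun z hz h3 h4 => ?_⟩
      by_cases hE : a = y
      · subst hE
        exact h2 z (hA hz) h3 h4
      · have h5 : r a y := (h.tot a ha y (hA hy) hE).resolve_right hay
        exact h2 z (hA hz) (h.trans a ha y (hA hy) z (hA hz) h5 h3) h4
  right := fun x hx U hU he => by
    obtain ⟨y, hy, hyx⟩ := he
    obtain ⟨a, ha, h1, h2⟩ := h.right x (hA hx) U hU ⟨y, hA hy, hyx⟩
    by_cases hay : r a y
    · exact ⟨a, hconv x hx y hy a ha h1 hay, h1, fun z hz => h2 z (hA hz)⟩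
    · refine ⟨y, hy, hyx, fun z hz h3 h4 => ?_⟩
      by_cases hE : a = y
      · subst hE
        exact h2 z (hA hz) h3 h4
      · have h5 : r y a := (h.tot a ha y (hA hy) hE).resolve_left hay
        exact h2 z (hA hz) h3 (h.trans z (hA hz) y (hA hy) a ha h4 h5)

end LO

/-- Lexicographic sums. -/
theorem lexsum {ι : Type*} [LinearOrder ι] (Q : Set X) (c : X → ι) (r : X → X → Prop)
    (hc : ∀ x ∈ Q, ∀ᶠ y in 𝓝 x, y ∈ Q → c y = c x)
    (hLO : ∀ i, LO (Q ∩ c ⁻¹' {i}) r)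
    (hmin : ∀ x ∈ Q, (∀ y ∈ Q, c y = c x → ¬ r y x) → (∃ y ∈ Q, c y < c x) →
      ∃ a ∈ Q, c a < c x ∧ (∀ y ∈ Q, c y = c a → ¬ r a y) ∧ ∀ y ∈ Q, c a < c y → ¬ c y < c x)
    (hmax : ∀ x ∈ Q, (∀ y ∈ Q, c y = c x → ¬ r x y) → (∃ y ∈ Q, c x < c y) →
      ∃ a ∈ Q, c x < c a ∧ (∀ y ∈ Q, c y = c a → ¬ r y a) ∧ ∀ y ∈ Q, c x < c y → ¬ c y < c a) :
    LO Q (fun x y => c x < c y ∨ (c x = c y ∧ r x y)) where
  irr := by
    rintro x hx (h | h)
    · exact lt_irrefl _ h
    · exact (hLO (c x)).irr x ⟨hx, rfl⟩ h.2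
  trans := by
    rintro x hx y hy z hz (h1 | h1) (h2 | h2)
    · exact Or.inl (h1.trans h2)
    · exact Or.inl (h2.1 ▸ h1)
    · exact Or.inl (h1.1 ▸ h2)
    · exact Or.inr ⟨h1.1.trans h2.1, (hLO (c x)).trans x ⟨hx, rfl⟩ y ⟨hy, h1.1.symm⟩ z
        ⟨hz, (h1.1.trans h2.1).symm⟩ h1.2 h2.2⟩
  tot := by
    intro x hx y hy hne
    rcases lt_trichotomy (c x) (c y) with h | h | h
    · exact Or.inl (Or.inl h)
    · rcases (hLO (c x)).tot x ⟨hx, rfl⟩ y ⟨hy, h.symm⟩ hne with h' | h'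
      · exact Or.inl (Or.inr ⟨h, h'⟩)
      · exact Or.inr (Or.inr ⟨h.symm, h'⟩)
    · exact Or.inr (Or.inl h)
  lo := by
    rintro x hx a ha (h | ⟨h, h'⟩)
    · filter_upwards [hc x hx] with y hy hyQ
      exact Or.inl ((hy hyQ).symm ▸ h)
    · filter_upwards [hc x hx, (hLO (c x)).lo x ⟨hx, rfl⟩ a ⟨ha, h.symm⟩ h'] with y hy hy' hyQ
      exact Or.inr ⟨(hy hyQ).trans h, hy' ⟨hyQ, hy hyQ⟩⟩
  hi := by
    rintro x hx a ha (h | ⟨h, h'⟩)
    · filter_upwards [hc x hx] with y hy hyQ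
      exact Or.inl ((hy hyQ).symm ▸ h)
    · filter_upwards [hc x hx, (hLO (c x)).hi x ⟨hx, rfl⟩ a ⟨ha, h⟩ h'] with y hy hy' hyQ
      exact Or.inr ⟨h.trans (hy hyQ).symm, hy' ⟨hyQ, hy hyQ⟩⟩
  left := by
    intro x hx U hU he
    by_cases hm : ∃ y ∈ Q, c y = c x ∧ r y x
    · obtain ⟨y, hy, hy1, hy2⟩ := hm
      obtain ⟨a, ha, h1, h2⟩ := (hLO (c x)).left x ⟨hx, rfl⟩ U hU ⟨y, ⟨hy, hy1⟩, hy2⟩
      refine ⟨a, ha.1, Or.inr ⟨ha.2, h1⟩, ?_⟩
      have hac : c a = c x := ha.2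
      rintro z hz (h3 | h3) (h4 | h4)
      · exact absurd (h3.trans h4) (by rw [hac]; exact lt_irrefl _)
      · exact absurd (h4.1 ▸ h3) (by rw [hac]; exact lt_irrefl _)
      · exact absurd (h3.1 ▸ h4) (by rw [hac]; exact lt_irrefl _)
      · exact h2 z ⟨hz, h4.1⟩ h3.2 h4.2
    · push Not at hm
      obtain ⟨y, hy, hyx⟩ := he
      have hyx' : c y < c x := hyx.resolve_right (fun h => hm y hy h.1 h.2)
      obtain ⟨a, ha, h1, h2, h3⟩ := hmin x hx hm ⟨y, hy, hyx'⟩
      refine ⟨a, ha, Or.inl h1, ?_⟩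
      rintro z hz (h4 | h4) (h5 | h5)
      · exact absurd h5 (h3 z hz h4)
      · exact absurd h5.2 (hm z hz h5.1)
      · exact absurd h4.2 (h2 z hz h4.1.symm)
      · exact absurd h5.2 (hm z hz h5.1)
  right := by
    intro x hx U hU he
    by_cases hm : ∃ y ∈ Q, c y = c x ∧ r x y
    · obtain ⟨y, hy, hy1, hy2⟩ := hm
      obtain ⟨a, ha, h1, h2⟩ := (hLO (c x)).right x ⟨hx, rfl⟩ U hU ⟨y, ⟨hy, hy1⟩, hy2⟩
      refine ⟨a, ha.1, Or.inr ⟨ha.2.symm, h1⟩, ?_⟩
      have hac : c a = c x := ha.2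
      rintro z hz (h3 | h3) (h4 | h4)
      · exact absurd (h3.trans h4) (by rw [hac]; exact lt_irrefl _)
      · exact absurd (h4.1 ▸ h3) (by rw [hac]; exact lt_irrefl _)
      · exact absurd (h3.1 ▸ h4) (by rw [hac]; exact lt_irrefl _)
      · exact h2 z ⟨hz, h3.1.symm⟩ h3.2 h4.2
    · push Not at hm
      obtain ⟨y, hy, hyx⟩ := he
      have hyx' : c x < c y := hyx.resolve_right (fun h => hm y hy h.1.symm h.2)
      obtain ⟨a, ha, h1, h2, h3⟩ := hmax x hx hm ⟨y, hy, hyx'⟩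
      refine ⟨a, ha, Or.inl h1, ?_⟩
      rintro z hz (h4 | h4) (h5 | h5)
      · exact absurd h5 (h3 z hz h4)
      · exact absurd h5.2 (h2 z hz h5.1)
      · exact absurd h4.2 (hm z hz h4.1.symm)
      · exact absurd h4.2 (hm z hz h4.1.symm)

/-- `A` and `B` are separated. -/
def Sep (A B : Set X) : Prop := (∀ x ∈ A, ∀ᶠ y in 𝓝 x, y ∉ B) ∧ ∀ x ∈ B, ∀ᶠ y in 𝓝 x, y ∉ A

lemma Sep.symm {A B : Set X} (h : Sep A B) : Sep B A := ⟨h.2, h.1⟩

lemma Sep.notMem {A B : Set X} (h : Sep A B) {x : X} (hx : x ∈ A) : x ∉ B :=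
  (h.1 x hx).self_of_nhds

lemma Sep.mono {A B A' B' : Set X} (h : Sep A B) (hA : A' ⊆ A) (hB : B' ⊆ B) : Sep A' B' :=
  ⟨fun x hx => (h.1 x (hA hx)).mono fun _ hy hy' => hy (hB hy'),
   fun x hx => (h.2 x (hB hx)).mono fun _ hy hy' => hy (hA hy')⟩

lemma Sep.union {A B C : Set X} (h : Sep A C) (h' : Sep B C) : Sep (A ∪ B) C := by
  refine ⟨?_, ?_⟩
  · rintro x (hx | hx)
    · exact h.1 x hx
    · exact h'.1 x hx
  · intro x hx
    filter_upwards [h.2 x hx, h'.2 x hx] with y h1 h2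
    rintro (h3 | h3)
    · exact h1 h3
    · exact h2 h3

/-- The order sum. -/
def sumr (A B : Set X) (r s : X → X → Prop) (x y : X) : Prop :=
  (x ∈ A ∧ y ∈ A ∧ r x y) ∨ (x ∈ A ∧ y ∈ B) ∨ (x ∈ B ∧ y ∈ B ∧ s x y)

lemma LO.sum {A B : Set X} {r s : X → X → Prop} (hA : LO A r) (hB : LO B s) (hS : Sep A B)
    (hm : (∃ m ∈ A, ∀ y ∈ A, ¬ r m y) ↔ (∃ m ∈ B, ∀ y ∈ B, ¬ s y m)) :
    LO (A ∪ B) (sumr A B r s) := by
  classical
  have hAB : ∀ x ∈ A, x ∉ B := fun x hx => hS.notMem hx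
  have hBA : ∀ x ∈ B, x ∉ A := fun x hx => hS.symm.notMem hx
  set c : X → Bool := fun x => decide (x ∈ B) with hc
  have cA : ∀ x ∈ A, c x = false := fun x hx => by simp [hc, hAB x hx]
  have cB : ∀ x ∈ B, c x = true := fun x hx => by simp [hc, hx]
  set R : X → X → Prop := fun x y => if x ∈ B then s x y else r x y with hR
  have key : LO (A ∪ B) (fun x y => c x < c y ∨ (c x = c y ∧ R x y)) := by
    apply lexsum
    · rintro x (hx | hx)
      · filter_upwards [hS.1 x hx] with y hy hyQ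
        rw [cA x hx, cA y (hyQ.resolve_right hy)]
      · filter_upwards [hS.2 x hx] with y hy hyQ
        rw [cB x hx, cB y (hyQ.resolve_left hy)]
    · intro i
      cases i
      · have e : (A ∪ B) ∩ c ⁻¹' {false} = A := by
          ext x
          simp only [mem_inter_iff, mem_union, mem_preimage, mem_singleton_iff]
          constructor
          · rintro ⟨h1 | h1, h2⟩
            · exact h1
            · rw [cB x h1] at h2
              exact absurd h2 (by decide)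
          · intro h
            exact ⟨Or.inl h, cA x h⟩
        rw [e]
        apply hA.congr
        intro x hx y hy
        simp only [hR, if_neg (hAB x hx)]
      · have e : (A ∪ B) ∩ c ⁻¹' {true} = B := by
          ext x
          simp only [mem_inter_iff, mem_union, mem_preimage, mem_singleton_iff]
          constructor
          · rintro ⟨h1 | h1, h2⟩
            · rw [cA x h1] at h2
              exact absurd h2 (by decide)
            · exact h1
          · intro h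
            exact ⟨Or.inr h, cB x h⟩
        rw [e]
        apply hB.congr
        intro x hx y hy
        simp only [hR, if_pos hx]
    · rintro x (hx | hx) h1 ⟨y, hy, h2⟩
      · rw [cA x hx] at h2
        exact absurd h2 (by simp)
      · obtain ⟨m, hmA, hm'⟩ := hm.2 ⟨x, hx, fun y hy => by
          have := h1 y (Or.inr hy) (by rw [cB x hx, cB y hy])
          simpa only [hR, if_pos hy] using this⟩
        refine ⟨m, Or.inl hmA, ?_, ?_, ?_⟩
        · rw [cA m hmA, cB x hx]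
          decide
        · rintro z (hz | hz) hz'
          · simp only [hR, if_neg (hAB m hmA)]
            exact hm' z hz
          · rw [cA m hmA, cB z hz] at hz'
            exact absurd hz' (by decide)
        · intro z hz h3 h4
          rw [cB x hx] at h4
          rw [cA m hmA] at h3
          cases hcz : c z
          · rw [hcz] at h3
            exact absurd h3 (lt_irrefl _)
          · rw [hcz] at h4
            exact absurd h4 (lt_irrefl _)
    · rintro x (hx | hx) h1 ⟨y, hy, h2⟩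
      · obtain ⟨m, hmA, hm'⟩ := hm.1 ⟨x, hx, fun y hy => by
          have := h1 y (Or.inl hy) (by rw [cA x hx, cA y hy])
          simpa only [hR, if_neg (hAB x hx)] using this⟩
        refine ⟨m, Or.inr hmA, ?_, ?_, ?_⟩
        · rw [cB m hmA, cA x hx]
          decide
        · rintro z (hz | hz) hz'
          · rw [cB m hmA, cA z hz] at hz'
            exact absurd hz' (by decide)
          · simp only [hR, if_pos hz]
            exact hm' z hz
        · intro z hz h3 h4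
          rw [cA x hx] at h3
          rw [cB m hmA] at h4
          cases hcz : c z
          · rw [hcz] at h3
            exact absurd h3 (lt_irrefl _)
          · rw [hcz] at h4
            exact absurd h4 (lt_irrefl _)
      · rw [cB x hx] at h2
        cases hcy : c y
        · rw [hcy] at h2
          exact absurd h2 (by decide)
        · rw [hcy] at h2
          exact absurd h2 (lt_irrefl _)
  apply key.congr
  rintro x (hx | hx) y (hy | hy)
  · simp only [cA x hx, cA y hy, hR, if_neg (hAB x hx), sumr, hx, hy, hAB x hx, hAB y hy]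
    simp
  · simp only [cA x hx, cB y hy, sumr, hx, hy]
    simp
  · simp only [cB x hx, cA y hy, sumr, hx, hy, hBA x hx, hAB y hy]
    simp
  · simp only [cB x hx, cB y hy, hR, if_pos hx, sumr, hx, hy, hBA x hx]
    simp

end Pool.Agent.D0H84.Galvin
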