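import Pool.Agent.D0H84.Galvin.A

/-! End points, compactness and sums of two orderable sets. -/

set_option autoImplicit false

open Set Filter Topology

namespace Pool.Agent.D0H84.Galvin

variable {X : Type*} [TopologicalSpace X]

/-- The space is scattered. -/
def Scat (X : Type*) [TopologicalSpace X] : Prop :=
  ∀ A : Set X, A.Nonempty → ∃ x ∈ A, ∃ U : Set X, IsOpen U ∧ U ∩ A = {x}

/-- `Q` is orderable. -/
def Ord (Q : Set X) : Prop := ∃ r, LO Q r

/-- `Q` is orderable with the end point `x`. -/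
def OrdEnd (Q : Set X) (x : X) : Prop := ∃ r, LO Q r ∧ x ∈ Q ∧ ∀ y ∈ Q, ¬ r y x

/-- `Q` is orderable without a minimum. -/
def OrdNoMin (Q : Set X) : Prop := ∃ r, LO Q r ∧ ∀ x ∈ Q, ∃ y ∈ Q, r y x

lemma OrdEnd.ord {Q : Set X} {x : X} (h : OrdEnd Q x) : Ord Q := ⟨h.choose, h.choose_spec.1⟩

lemma sumr_left {A B : Set X} {r s : X → X → Prop} (hS : Sep A B) {x : X} (hx : x ∈ A)
    (hm : ∀ y ∈ A, ¬ r y x) : ∀ y ∈ A ∪ B, ¬ sumr A B r s y x := by
  rintro y hy (⟨_, _, h⟩ | ⟨_, h⟩ | ⟨_, h, _⟩)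
  · exact hm y ‹_› h
  · exact hS.notMem hx h
  · exact hS.notMem hx h

lemma sumr_right {A B : Set X} {r s : X → X → Prop} (hS : Sep A B) {x : X} (hx : x ∈ B)
    (hm : ∀ y ∈ B, ¬ s x y) : ∀ y ∈ A ∪ B, ¬ sumr A B r s x y := by
  rintro y hy (⟨h, _⟩ | ⟨h, _⟩ | ⟨_, _, h⟩)
  · exact hS.notMem h hx
  · exact hS.notMem h hx
  · exact hm y ‹_› h

/-- Cutting an order just after `z`. -/
lemma cut_after {Q : Set X} {r : X → X → Prop} (h : LO Q r) {z a : X} (hz : z ∈ Q) (ha : a ∈ Q)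
    (hza : r z a) (hadj : ∀ y ∈ Q, r z y → ¬ r y a) :
    LO {y ∈ Q | y = z ∨ r y z} r ∧ LO {y ∈ Q | r z y} r ∧
      Sep {y ∈ Q | y = z ∨ r y z} {y ∈ Q | r z y} ∧
      {y ∈ Q | y = z ∨ r y z} ∪ {y ∈ Q | r z y} = Q ∧
      (∀ y ∈ {y ∈ Q | y = z ∨ r y z}, ¬ r z y) ∧ (∀ y ∈ {y ∈ Q | r z y}, ¬ r y a) := by
  refine ⟨?_, ?_, ⟨?_, ?_⟩, ?_, ?_, ?_⟩
  · apply h.restrict (fun y hy => hy.1)
    rintro x hx y ⟨hy, hy'⟩ w hw h1 h2
    refine ⟨hw, Or.inr ?_⟩
    rcases hy' with rfl | hy'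
    · exact h2
    · exact h.trans w hw y hy z hz h2 hy'
  · apply h.restrict (fun y hy => hy.1)
    rintro x ⟨hx, hx'⟩ y hy w hw h1 h2
    exact ⟨hw, h.trans z hz x hx w hw hx' h1⟩
  · rintro x ⟨hx, hx'⟩
    have hxa : r x a := by
      rcases hx' with rfl | hx'
      · exact hza
      · exact h.trans x hx z hz a ha hx' hza
    filter_upwards [h.lo x hx a ha hxa] with y hy
    rintro ⟨hyQ, hzy⟩
    exact hadj y hyQ hzy (hy hyQ)
  · rintro x ⟨hx, hx'⟩
    filter_upwards [h.hi x hx z hz hx'] with y hy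
    rintro ⟨hyQ, rfl | hyz⟩
    · exact h.irr _ hyQ (hy hyQ)
    · exact h.asymm hyQ hz hyz (hy hyQ)
  · ext y
    simp only [mem_union, mem_ofPred_eq]
    constructor
    · rintro (h1 | h1)
      · exact h1.1
      · exact h1.1
    · intro hy
      by_cases hE : y = z
      · exact Or.inl ⟨hy, Or.inl hE⟩
      · rcases h.tot y hy z hz hE with h1 | h1
        · exact Or.inl ⟨hy, Or.inr h1⟩
        · exact Or.inr ⟨hy, h1⟩
  · rintro y ⟨hy, rfl | hy'⟩ h1
    · exact h.irr _ hy h1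
    · exact h.asymm hy hz hy' h1
  · rintro y ⟨hy, hy'⟩ h1
    exact hadj y hy hy' h1

/-- An orderable nonempty scattered set has an order with a minimum. -/
theorem end_of_ord (hX : Scat X) {Q : Set X} (hne : Q.Nonempty) (hQ : Ord Q) :
    ∃ x, OrdEnd Q x := by
  obtain ⟨r, h⟩ := hQ
  by_cases h1 : ∃ m ∈ Q, ∀ y ∈ Q, ¬ r y m
  · obtain ⟨m, hm, hm'⟩ := h1
    exact ⟨m, r, h, hm, hm'⟩
  by_cases h2 : ∃ m ∈ Q, ∀ y ∈ Q, ¬ r m y
  · obtain ⟨m, hm, hm'⟩ := h2
    exact ⟨m, _, h.flip, hm, hm'⟩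
  push Not at h1 h2
  obtain ⟨z, hz, U, hU, hUz⟩ := hX Q hne
  have hzU : z ∈ U := by
    have : z ∈ U ∩ Q := by rw [hUz]; rfl
    exact this.1
  obtain ⟨a, ha, hza, hadj'⟩ := h.right z hz U (hU.mem_nhds hzU) (h2 z hz)
  have hadj : ∀ y ∈ Q, r z y → ¬ r y a := by
    intro y hy h3 h4
    have : y ∈ U ∩ Q := ⟨hadj' y hy h3 h4, hy⟩
    rw [hUz] at this
    have : y = z := this
    subst this
    exact h.irr _ hy h3
  obtain ⟨c1, c2, c3, c4, c5, c6⟩ := cut_after h hz ha hza hadj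
  have key := c2.sum c1 c3.symm (by
    constructor
    · rintro ⟨m, ⟨hm, hm'⟩, hmm⟩
      exfalso
      obtain ⟨y, hy, hmy⟩ := h2 m hm
      exact hmm y ⟨hy, h.trans z hz m hm y hy hm' hmy⟩ hmy
    · rintro ⟨m, ⟨hm, hm'⟩, hmm⟩
      exfalso
      obtain ⟨y, hy, hmy⟩ := h1 m hm
      refine hmm y ⟨hy, Or.inr ?_⟩ hmy
      rcases hm' with rfl | hm'
      · exact hmy
      · exact h.trans y hy m hm z hz hmy hm')
  rw [union_comm, c4] at key
  refine ⟨a, _, key, ha, ?_⟩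
  have := sumr_left (r := r) (s := r) c3.symm (x := a) ⟨ha, hza⟩ c6
  rw [union_comm, c4] at this
  exact this

/-- A compact nonempty set with an order has a minimum. -/
lemma LO.exists_min {Q : Set X} {r : X → X → Prop} (h : LO Q r) (hc : IsCompact Q)
    (hne : Q.Nonempty) : ∃ m ∈ Q, ∀ y ∈ Q, ¬ r y m := by
  classical
  by_contra hcon
  push Not at hcon
  choose! f hf hf' using hcon
  -- nhds
  have hU : ∀ x ∈ Q, {y | y ∈ Q → r (f x) y} ∈ 𝓝 x := fun x hx =>
    h.hi x hx (f x) (hf x hx) (hf' x hx)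
  obtain ⟨t, ht, hcov⟩ := hc.elim_nhds_subcover (fun x => {y | y ∈ Q → r (f x) y}) hU
  -- least element among f x, x ∈ t
  have hne' : t.Nonempty := by
    obtain ⟨q, hq⟩ := hne
    obtain ⟨x, hx, _⟩ := mem_iUnion₂.1 (hcov hq)
    exact ⟨x, hx⟩
  -- choose a minimal element by induction
  have key : ∀ t : Finset X, (∀ x ∈ t, x ∈ Q) → t.Nonempty →
      ∃ m ∈ t, ∀ x ∈ t, x = m ∨ r (f m) (f x) ∨ f m = f x := by
    intro t
    induction t using Finset.induction_on with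
    | empty => intro _ h0; exact absurd h0 (by simp)
    | insert a t ha ih =>
      intro htQ _
      rcases t.eq_empty_or_nonempty with rfl | hne
      · exact ⟨a, by simp, by simp⟩
      · obtain ⟨m, hm, hm'⟩ := ih (fun x hx => htQ x (Finset.mem_insert_of_mem hx)) hne
        have haQ := htQ a (Finset.mem_insert_self _ _)
        have hmQ := htQ m (Finset.mem_insert_of_mem hm)
        by_cases hE : f a = f m
        · refine ⟨m, Finset.mem_insert_of_mem hm, ?_⟩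
          intro x hx
          rcases Finset.mem_insert.1 hx with rfl | hx
          · exact Or.inr (Or.inr hE.symm)
          · exact hm' x hx
        rcases h.tot (f a) (hf a haQ) (f m) (hf m hmQ) hE with h1 | h1
        · refine ⟨a, Finset.mem_insert_self _ _, ?_⟩
          intro x hx
          rcases Finset.mem_insert.1 hx with rfl | hx
          · exact Or.inl rfl
          · right
            have hxQ := htQ x (Finset.mem_insert_of_mem hx)
            rcases hm' x hx with rfl | h2 | h2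
            · exact Or.inl h1
            · exact Or.inl (h.trans _ (hf a haQ) _ (hf m hmQ) _ (hf x hxQ) h1 h2)
            · exact Or.inl (h2 ▸ h1)
        · refine ⟨m, Finset.mem_insert_of_mem hm, ?_⟩
          intro x hx
          rcases Finset.mem_insert.1 hx with rfl | hx
          · exact Or.inr (Or.inl h1)
          · exact hm' x hx
  obtain ⟨m, hm, hm'⟩ := key t ht hne'
  have hmQ := ht m hm
  obtain ⟨x, hx, hx'⟩ := mem_iUnion₂.1 (hcov (hf m hmQ))
  have hx'' := hx' (hf m hmQ)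
  have hxQ := ht x hx
  rcases hm' x hx with rfl | h2 | h2
  · exact h.irr _ (hf x hxQ) hx''
  · exact h.asymm (hf m hmQ) (hf x hxQ) h2 hx''
  · rw [h2] at hx''
    exact h.irr _ (hf x hxQ) hx''

lemma LO.exists_max {Q : Set X} {r : X → X → Prop} (h : LO Q r) (hc : IsCompact Q)
    (hne : Q.Nonempty) : ∃ m ∈ Q, ∀ y ∈ Q, ¬ r m y := h.flip.exists_min hc hne

/-- An orderable noncompact set has an order without minimum. -/
theorem noMin_of_ord {Q : Set X} (hQ : Ord Q) (hc : ¬ IsCompact Q) : OrdNoMin Q := by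
  obtain ⟨r, h⟩ := hQ
  by_contra hno
  have h1 : ∃ m ∈ Q, ∀ y ∈ Q, ¬ r y m := by
    by_contra h1
    push Not at h1
    exact hno ⟨r, h, h1⟩
  have h2 : ∃ m ∈ Q, ∀ y ∈ Q, ¬ r m y := by
    by_contra h2
    push Not at h2
    exact hno ⟨_, h.flip, h2⟩
  obtain ⟨m, hm, hm'⟩ := h1
  obtain ⟨M, hM, hM'⟩ := h2
  apply hc
  rw [isCompact_iff_ultrafilter_le_nhds]
  intro 𝓤 hU
  rw [le_principal_iff] at hU
  set A : Set X := {x ∈ Q | {y | y ∈ Q ∧ (y = x ∨ r x y)} ∈ 𝓤} with hA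
  set B : Set X := {x ∈ Q | {y | y ∈ Q ∧ r y x} ∈ 𝓤} with hB
  have hABQ : ∀ x ∈ Q, x ∈ A ∨ x ∈ B := by
    intro x hx
    by_cases hxB : {y | y ∈ Q ∧ r y x} ∈ 𝓤
    · exact Or.inr ⟨hx, hxB⟩
    · left
      refine ⟨hx, ?_⟩
      have := Ultrafilter.compl_mem_iff_notMem.2 hxB
      filter_upwards [this, hU] with y h1 h2
      refine ⟨h2, ?_⟩
      by_contra h3
      push Not at h3
      exact h1 ⟨h2, (h.tot y h2 x hx h3.1).resolve_right h3.2⟩
  have hdisj : ∀ x ∈ A, x ∉ B := by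
    rintro x ⟨hx, hx1⟩ ⟨_, hx2⟩
    obtain ⟨y, hy1, hy2⟩ := 𝓤.nonempty_of_mem (inter_mem hx1 hx2)
    rcases hy1.2 with rfl | h3
    · exact h.irr _ hx hy2.2
    · exact h.asymm hy1.1 hx hy2.2 h3
  have hAlow : ∀ x ∈ A, ∀ y ∈ Q, r y x → y ∈ A := by
    rintro x ⟨hx, hx1⟩ y hy hyx
    refine ⟨hy, ?_⟩
    filter_upwards [hx1] with z hz
    refine ⟨hz.1, Or.inr ?_⟩
    rcases hz.2 with rfl | h3
    · exact hyx
    · exact h.trans y hy x hx z hz.1 hyx h3
  have hBup : ∀ x ∈ B, ∀ y ∈ Q, r x y → y ∈ B := by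
    rintro x ⟨hx, hx1⟩ y hy hyx
    refine ⟨hy, ?_⟩
    filter_upwards [hx1] with z hz
    exact ⟨hz.1, h.trans z hz.1 x hx y hy hz.2 hyx⟩
  have hAB : ∀ x ∈ A, ∀ y ∈ B, r x y := by
    intro x hx y hy
    have hne : x ≠ y := fun h => hdisj x hx (h ▸ hy)
    rcases h.tot x hx.1 y hy.1 hne with h3 | h3
    · exact h3
    · exact absurd hy (hdisj y (hAlow x hx y hy.1 h3))
  have hmA : m ∈ A := by
    refine ⟨hm, ?_⟩
    filter_upwards [hU] with y hy
    refine ⟨hy, ?_⟩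
    by_cases hE : y = m
    · exact Or.inl hE
    · exact Or.inr ((h.tot y hy m hm hE).resolve_left (hm' y hy))
  by_cases hBe : B = ∅
  · -- converges to M
    refine ⟨M, hM, ?_⟩
    have hMA : M ∈ A := (hABQ M hM).resolve_right (by rw [hBe]; exact notMem_empty _)
    intro V hV
    filter_upwards [hMA.2] with y hy
    rcases hy.2 with rfl | h3
    · exact mem_of_mem_nhds hV
    · exact absurd h3 (hM' y hy.1)
  · have hBne : B.Nonempty := nonempty_iff_ne_empty.2 hBe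
    have hMB : M ∈ B := by
      obtain ⟨b, hb⟩ := hBne
      by_cases hE : M = b
      · rw [hE]; exact hb
      · exact hBup b hb M hM ((h.tot M hM b hb.1 hE).resolve_left (hM' b hb.1))
    by_cases hAmax : ∃ a ∈ A, ∀ y ∈ A, ¬ r a y
    · obtain ⟨a, ha, ha'⟩ := hAmax
      refine ⟨a, ha.1, ?_⟩
      intro V hV
      obtain ⟨b, hb, hab, hb'⟩ := h.right a ha.1 V hV ⟨M, hM, hAB a ha M hMB⟩
      have hbB : b ∈ B := (hABQ b hb).resolve_left (fun h3 => ha' b h3 hab)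
      filter_upwards [ha.2, hbB.2] with y hy1 hy2
      rcases hy1.2 with rfl | h3
      · exact mem_of_mem_nhds hV
      · exact hb' y hy1.1 h3 hy2.2
    · push Not at hAmax
      by_cases hBmin : ∃ b ∈ B, ∀ y ∈ B, ¬ r y b
      · obtain ⟨b, hb, hb'⟩ := hBmin
        refine ⟨b, hb.1, ?_⟩
        intro V hV
        obtain ⟨a, ha, hab, ha'⟩ := h.left b hb.1 V hV ⟨m, hm, hAB m hmA b hb⟩
        have haA : a ∈ A := (hABQ a ha).resolve_right (fun h3 => hb' a h3 hab)
        obtain ⟨a', ha'A, haa'⟩ := hAmax a haA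
        filter_upwards [ha'A.2, hb.2] with y hy1 hy2
        refine ha' y hy1.1 ?_ hy2.2
        rcases hy1.2 with rfl | h3
        · exact haa'
        · exact h.trans a ha a' ha'A.1 y hy1.1 haa' h3
      · push Not at hBmin
        exfalso
        apply hno
        have hSep : Sep A B := by
          refine ⟨?_, ?_⟩
          · intro x hx
            obtain ⟨x', hx', hxx'⟩ := hAmax x hx
            filter_upwards [h.lo x hx.1 x' hx'.1 hxx'] with y hy hyB
            exact hdisj y (hAlow x' hx' y hyB.1 (hy hyB.1)) hyB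
          · intro x hx
            obtain ⟨x', hx', hxx'⟩ := hBmin x hx
            filter_upwards [h.hi x hx.1 x' hx'.1 hxx'] with y hy hyA
            exact hdisj y hyA (hBup x' hx' y hyA.1 (hy hyA.1))
        have hLA : LO A r := h.restrict (fun y hy => hy.1)
          (fun x _ y hy z hz _ h4 => hAlow y hy z hz h4)
        have hLB : LO B r := h.restrict (fun y hy => hy.1)
          (fun x hx y _ z hz h3 _ => hBup x hx z hz h3)
        have hQe : B ∪ A = Q := by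
          ext x
          constructor
          · rintro (h3 | h3)
            · exact h3.1
            · exact h3.1
          · intro hx
            exact (hABQ x hx).symm
        have key := hLB.sum hLA hSep.symm ⟨fun _ => ⟨m, hmA, fun y hy => hm' y hy.1⟩,
          fun _ => ⟨M, hMB, fun y hy => hM' y hy.1⟩⟩
        rw [hQe] at key
        refine ⟨_, key, ?_⟩
        intro x hx
        rcases hABQ x hx with h3 | h3
        · exact ⟨M, hM, Or.inr (Or.inl ⟨hMB, h3⟩)⟩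
        · obtain ⟨y, hy, hyx⟩ := hBmin x h3
          exact ⟨y, hy.1, Or.inl ⟨hy, h3, hyx⟩⟩

/-- The sum of a set orderable with the end point `x` and an orderable set. -/
theorem OrdEnd.sum [T1Space X] (hX : Scat X) {A B : Set X} {x : X} (hA : OrdEnd A x)
    (hB : B = ∅ ∨ Ord B) (hS : Sep A B) : OrdEnd (A ∪ B) x := by
  rcases B.eq_empty_or_nonempty with rfl | hBne
  · rwa [union_empty]
  have hB := hB.resolve_left hBne.ne_empty
  obtain ⟨r, h, hx, hx'⟩ := hA
  by_cases hmax : ∃ M ∈ A, ∀ y ∈ A, ¬ r M y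
  · obtain ⟨b, s, hs, hb, hb'⟩ := end_of_ord hX hBne hB
    exact ⟨_, h.sum hs hS ⟨fun _ => ⟨b, hb, hb'⟩, fun _ => hmax⟩, Or.inl hx,
      sumr_left hS hx hx'⟩
  by_cases hBc : IsCompact B
  · -- insert the compact set `B` at a jump
    obtain ⟨s, hs⟩ := hB
    obtain ⟨b, hb, hb'⟩ := hs.exists_min hBc hBne
    obtain ⟨b2, hb2, hb2'⟩ := hs.exists_max hBc hBne
    push Not at hmax
    obtain ⟨y, hy, hxy⟩ := hmax x hx
    have hne : (A ∩ {x}ᶜ).Nonempty := ⟨y, hy, fun hE => by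
      have : y = x := hE
      subst this
      exact h.irr _ hy hxy⟩
    obtain ⟨z, ⟨hz, hzx⟩, U, hU, hUz⟩ := hX _ hne
    have hzU : z ∈ U := by
      have : z ∈ U ∩ (A ∩ {x}ᶜ) := by rw [hUz]; rfl
      exact this.1
    obtain ⟨a, ha, hza, hadj'⟩ := h.right z hz (U ∩ {x}ᶜ)
      ((hU.inter isOpen_compl_singleton).mem_nhds ⟨hzU, hzx⟩) (hmax z hz)
    have hadj : ∀ y ∈ A, r z y → ¬ r y a := by
      intro y hy h3 h4
      have : y ∈ U ∩ (A ∩ {x}ᶜ) := ⟨(hadj' y hy h3 h4).1, hy, (hadj' y hy h3 h4).2⟩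
      rw [hUz] at this
      have : y = z := this
      subst this
      exact h.irr _ hy h3
    obtain ⟨c1, c2, c3, c4, c5, c6⟩ := cut_after h hz ha hza hadj
    set A1 := {y ∈ A | y = z ∨ r y z} with hA1
    set A2 := {y ∈ A | r z y} with hA2
    have hA1s : A1 ⊆ A := fun y hy => hy.1
    have hA2s : A2 ⊆ A := fun y hy => hy.1
    have hS1 : Sep A1 B := hS.mono hA1s subset_rfl
    have hS2 : Sep B A2 := (hS.mono hA2s subset_rfl).symm
    have k1 := c1.sum hs hS1 ⟨fun _ => ⟨b, hb, hb'⟩, fun _ => ⟨z, ⟨hz, Or.inl rfl⟩, c5⟩⟩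
    have k2 := k1.sum c2 (c3.union hS2) ⟨fun _ => ⟨a, ⟨ha, hza⟩, c6⟩,
      fun _ => ⟨b2, Or.inr hb2, sumr_right hS1 hb2 hb2'⟩⟩
    have hxz : r x z := (h.tot x hx z hz (fun hE => hzx hE.symm)).resolve_right (hx' z hz)
    have hxA1 : x ∈ A1 := ⟨hx, Or.inr hxz⟩
    have e : A1 ∪ B ∪ A2 = A ∪ B := by
      rw [union_assoc, union_comm B A2, ← union_assoc, c4]
    rw [e] at k2
    refine ⟨_, k2, Or.inl hx, ?_⟩
    have := sumr_left (r := sumr A1 B r s) (s := r) (c3.union hS2) (x := x) (Or.inl hxA1)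
      (sumr_left hS1 hxA1 (fun y hy => hx' y hy.1))
    rw [e] at this
    exact this
  · obtain ⟨s, hs, hs'⟩ := noMin_of_ord hB hBc
    refine ⟨_, h.sum hs hS ⟨fun hh => absurd hh hmax, ?_⟩, Or.inl hx, sumr_left hS hx hx'⟩
    rintro ⟨m, hm, hm'⟩
    obtain ⟨y, hy, hym⟩ := hs' m hm
    exact absurd hym (hm' y hy)

theorem Ord.sum [T1Space X] (hX : Scat X) {A B : Set X} (hA : A = ∅ ∨ Ord A)
    (hB : B = ∅ ∨ Ord B) (hS : Sep A B) : A ∪ B = ∅ ∨ Ord (A ∪ B) := by
  rcases A.eq_empty_or_nonempty with rfl | hAne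
  · rwa [empty_union]
  · have hA := hA.resolve_left hAne.ne_empty
    obtain ⟨x, hx⟩ := end_of_ord hX hAne hA
    exact Or.inr (hx.sum hX hB hS).ord

end Pool.Agent.D0H84.Galvin
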