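import Pool.Agent.D0H84.Galvin.B

/-! Infinite free sums. -/

set_option autoImplicit false

open Set Filter Topology

namespace Pool.Agent.D0H84.Galvin

universe u v

variable {X : Type u} [TopologicalSpace X]

/-- Any infinite type is in bijection with its product with a countable type. -/
lemma exists_equiv_prod (ι : Type v) [Infinite ι] (β : Type) [Countable β] [Nonempty β] :
    Nonempty (ι ≃ ι × β) := by
  rw [← Cardinal.lift_mk_eq'.{v, v}]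
  rw [Cardinal.mk_prod]
  have h1 : Cardinal.lift.{v} (Cardinal.mk β) ≤ Cardinal.mk ι := by
    refine le_trans ?_ (Cardinal.aleph0_le_mk ι)
    rw [Cardinal.lift_le_aleph0]
    exact Cardinal.mk_le_aleph0
  have h2 : Cardinal.lift.{v} (Cardinal.mk β) ≠ 0 := by
    rw [Ne, Cardinal.lift_eq_zero]
    exact Cardinal.mk_ne_zero β
  have h3 : Cardinal.mk ι * Cardinal.lift.{v} (Cardinal.mk β) = Cardinal.mk ι := by
    rw [Cardinal.mul_eq_left (Cardinal.aleph0_le_mk ι) h1 h2]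
  rw [Cardinal.lift_uzero, h3]

theorem inf_sum_noncompact (hX : Scat X) {ι : Type v} [Infinite ι] (Q : Set X) (c : X → ι)
    (hc : ∀ x ∈ Q, ∀ᶠ y in 𝓝 x, y ∈ Q → c y = c x)
    (hne : ∀ i, (Q ∩ c ⁻¹' {i}).Nonempty) (hO : ∀ i, Ord (Q ∩ c ⁻¹' {i}))
    (hK : ∀ i, ¬ IsCompact (Q ∩ c ⁻¹' {i})) : Ord Q := by
  classical
  obtain ⟨e⟩ := exists_equiv_prod ι ℕ
  letI : LinearOrder ι := IsWellOrder.linearOrder (WellOrderingRel (α := ι))
  -- step
  have step : ∀ (i : ι) (b : Prop), ∃ r, LO (Q ∩ c ⁻¹' {i}) r ∧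
      (b ↔ ∃ m ∈ Q ∩ c ⁻¹' {i}, ∀ y ∈ Q ∩ c ⁻¹' {i}, ¬ r y m) := by
    intro i b
    by_cases hb : b
    · obtain ⟨x, r, h1, h2, h3⟩ := end_of_ord hX (hne i) (hO i)
      exact ⟨r, h1, fun _ => ⟨x, h2, h3⟩, fun _ => hb⟩
    · obtain ⟨r, h1, h2⟩ := noMin_of_ord (hO i) (hK i)
      refine ⟨r, h1, fun h => absurd h hb, ?_⟩
      rintro ⟨m, hm, hm'⟩
      obtain ⟨y, hy, hym⟩ := h2 m hm
      exact absurd hym (hm' y hy)
  choose R' hR1 hR2 using step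
  let W : ι → ℕ → (X → X → Prop) := fun k n => Nat.rec (R' (e.symm (k, 0)) False)
    (fun n r => R' (e.symm (k, n + 1)) (∃ m ∈ Q ∩ c ⁻¹' {e.symm (k, n)},
      ∀ y ∈ Q ∩ c ⁻¹' {e.symm (k, n)}, ¬ r m y)) n
  have W0 : ∀ k, W k 0 = R' (e.symm (k, 0)) False := fun k => rfl
  have W1 : ∀ k n, W k (n + 1) = R' (e.symm (k, n + 1)) (∃ m ∈ Q ∩ c ⁻¹' {e.symm (k, n)},
      ∀ y ∈ Q ∩ c ⁻¹' {e.symm (k, n)}, ¬ W k n m y) := fun k n => rfl
  have WLO : ∀ k n, LO (Q ∩ c ⁻¹' {e.symm (k, n)}) (W k n) := by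
    intro k n
    cases n with
    | zero => rw [W0]; exact hR1 _ _
    | succ n => rw [W1]; exact hR1 _ _
  let c' : X → ι ×ₗ ℕ := fun x => toLex (e (c x))
  have hc' : ∀ x k n, c' x = toLex (k, n) ↔ c x = e.symm (k, n) := by
    intro x k n
    simp only [c']
    rw [toLex_inj, ← e.apply_eq_iff_eq_symm_apply]
  have hfib : ∀ k n, Q ∩ c' ⁻¹' {toLex (k, n)} = Q ∩ c ⁻¹' {e.symm (k, n)} := by
    intro k n
    ext x
    simp only [mem_inter_iff, mem_preimage, mem_singleton_iff, hc']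
  let r : X → X → Prop := fun x y => W (ofLex (c' x)).1 (ofLex (c' x)).2 x y
  have hr : ∀ x k n, c' x = toLex (k, n) → ∀ y, r x y ↔ W k n x y := by
    intro x k n h y
    simp only [r, h]
    rfl
  refine ⟨_, lexsum Q c' r ?_ ?_ ?_ ?_⟩
  · intro x hx
    filter_upwards [hc x hx] with y hy hyQ
    simp only [c', hy hyQ]
  · intro i
    obtain ⟨k, n⟩ := i
    change LO (Q ∩ c' ⁻¹' {toLex (k, n)}) r
    rw [hfib]
    apply (WLO k n).congr
    intro x hx y _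
    exact (hr x k n ((hc' x k n).2 hx.2) y).symm
  · intro x hx h1 h2
    obtain ⟨k, n, hkn⟩ : ∃ k n, c' x = toLex (k, n) := ⟨_, _, rfl⟩
    have hm : ∃ m ∈ Q ∩ c ⁻¹' {e.symm (k, n)}, ∀ y ∈ Q ∩ c ⁻¹' {e.symm (k, n)}, ¬ W k n y m := by
      refine ⟨x, ⟨hx, (hc' x k n).1 hkn⟩, fun y hy => ?_⟩
      have := h1 y hy.1 (((hc' y k n).2 hy.2).trans hkn.symm)
      rwa [hr y k n ((hc' y k n).2 hy.2)] at this
    cases n with
    | zero =>
      rw [W0] at hm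
      exact absurd ((hR2 _ _).2 hm) id
    | succ n =>
      rw [W1] at hm
      obtain ⟨a, ha, ha'⟩ := (hR2 _ _).2 hm
      have hca := (hc' a k n).2 ha.2
      refine ⟨a, ha.1, ?_, ?_, ?_⟩
      · rw [hca, hkn, Prod.Lex.toLex_lt_toLex]
        exact Or.inr ⟨rfl, Nat.lt_succ_self n⟩
      · intro y hy hya
        rw [hr a k n hca]
        exact ha' y ⟨hy, (hc' y k n).1 (hya.trans hca)⟩
      · intro y _ hy1 hy2
        obtain ⟨k', n', hkn'⟩ : ∃ k n, c' y = toLex (k, n) := ⟨_, _, rfl⟩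
        rw [hca, hkn', Prod.Lex.toLex_lt_toLex] at hy1
        rw [hkn, hkn', Prod.Lex.toLex_lt_toLex] at hy2
        simp only at hy1 hy2
        rcases hy1 with hy1 | ⟨hy1, hy1'⟩
        · rcases hy2 with hy2 | ⟨hy2, _⟩
          · exact lt_asymm hy1 hy2
          · exact absurd hy2 hy1.ne'
        · rcases hy2 with hy2 | ⟨_, hy2'⟩
          · exact absurd hy1 hy2.ne'
          · omega
  · intro x hx h1 h2
    obtain ⟨k, n, hkn⟩ : ∃ k n, c' x = toLex (k, n) := ⟨_, _, rfl⟩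
    have hm : ∃ m ∈ Q ∩ c ⁻¹' {e.symm (k, n)}, ∀ y ∈ Q ∩ c ⁻¹' {e.symm (k, n)}, ¬ W k n m y := by
      refine ⟨x, ⟨hx, (hc' x k n).1 hkn⟩, fun y hy => ?_⟩
      have := h1 y hy.1 (((hc' y k n).2 hy.2).trans hkn.symm)
      rwa [hr x k n hkn] at this
    have hm2 := (hR2 (e.symm (k, n + 1)) _).1 hm
    rw [← W1] at hm2
    obtain ⟨a, ha, ha'⟩ := hm2
    have hca := (hc' a k (n + 1)).2 ha.2
    refine ⟨a, ha.1, ?_, ?_, ?_⟩
    · rw [hca, hkn, Prod.Lex.toLex_lt_toLex]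
      exact Or.inr ⟨rfl, Nat.lt_succ_self n⟩
    · intro y hy hya
      have hcy := hya.trans hca
      rw [hr y k (n + 1) hcy]
      exact ha' y ⟨hy, (hc' y k (n + 1)).1 hcy⟩
    · intro y _ hy1 hy2
      obtain ⟨k', n', hkn'⟩ : ∃ k n, c' y = toLex (k, n) := ⟨_, _, rfl⟩
      rw [hkn, hkn', Prod.Lex.toLex_lt_toLex] at hy1
      rw [hca, hkn', Prod.Lex.toLex_lt_toLex] at hy2
      simp only at hy1 hy2
      rcases hy1 with hy1 | ⟨hy1, hy1'⟩
      · rcases hy2 with hy2 | ⟨hy2, _⟩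
        · exact lt_asymm hy1 hy2
        · exact absurd hy2 hy1.ne'
      · rcases hy2 with hy2 | ⟨_, hy2'⟩
        · exact absurd hy1 hy2.ne'
        · omega

theorem inf_sum_compact {ι : Type v} [Infinite ι] (Q : Set X) (c : X → ι)
    (hc : ∀ x ∈ Q, ∀ᶠ y in 𝓝 x, y ∈ Q → c y = c x)
    (hne : ∀ i, (Q ∩ c ⁻¹' {i}).Nonempty) (hO : ∀ i, Ord (Q ∩ c ⁻¹' {i}))
    (hK : ∀ i, IsCompact (Q ∩ c ⁻¹' {i})) : Ord Q := by
  classical
  obtain ⟨e⟩ := exists_equiv_prod ι ℤ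
  letI : LinearOrder ι := IsWellOrder.linearOrder (WellOrderingRel (α := ι))
  choose R hR using hO
  have hmin := fun i => (hR i).exists_min (hK i) (hne i)
  have hmax := fun i => (hR i).exists_max (hK i) (hne i)
  let c' : X → ι ×ₗ ℤ := fun x => toLex (e (c x))
  have hc' : ∀ x k n, c' x = toLex (k, n) ↔ c x = e.symm (k, n) := by
    intro x k n
    simp only [c']
    rw [toLex_inj, ← e.apply_eq_iff_eq_symm_apply]
  have hfib : ∀ k n, Q ∩ c' ⁻¹' {toLex (k, n)} = Q ∩ c ⁻¹' {e.symm (k, n)} := by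
    intro k n
    ext x
    simp only [mem_inter_iff, mem_preimage, mem_singleton_iff, hc']
  let r : X → X → Prop := fun x y => R (c x) x y
  have hr : ∀ x k n, c' x = toLex (k, n) → ∀ y, r x y ↔ R (e.symm (k, n)) x y := by
    intro x k n h y
    simp only [r, (hc' x k n).1 h]
  refine ⟨_, lexsum Q c' r ?_ ?_ ?_ ?_⟩
  · intro x hx
    filter_upwards [hc x hx] with y hy hyQ
    simp only [c', hy hyQ]
  · intro i
    obtain ⟨k, n⟩ := i
    change LO (Q ∩ c' ⁻¹' {toLex (k, n)}) r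
    rw [hfib]
    apply (hR (e.symm (k, n))).congr
    intro x hx y _
    exact (hr x k n ((hc' x k n).2 hx.2) y).symm
  · intro x hx h1 h2
    obtain ⟨k, n, hkn⟩ : ∃ k n, c' x = toLex (k, n) := ⟨_, _, rfl⟩
    obtain ⟨a, ha, ha'⟩ := hmax (e.symm (k, n - 1))
    have hca := (hc' a k (n - 1)).2 ha.2
    refine ⟨a, ha.1, ?_, ?_, ?_⟩
    · rw [hca, hkn, Prod.Lex.toLex_lt_toLex]
      exact Or.inr ⟨rfl, by simp⟩
    · intro y hy hya
      rw [hr a k (n - 1) hca]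
      exact ha' y ⟨hy, (hc' y k (n - 1)).1 (hya.trans hca)⟩
    · intro y _ hy1 hy2
      obtain ⟨k', n', hkn'⟩ : ∃ k n, c' y = toLex (k, n) := ⟨_, _, rfl⟩
      rw [hca, hkn', Prod.Lex.toLex_lt_toLex] at hy1
      rw [hkn, hkn', Prod.Lex.toLex_lt_toLex] at hy2
      simp only at hy1 hy2
      rcases hy1 with hy1 | ⟨hy1, hy1'⟩
      · rcases hy2 with hy2 | ⟨hy2, _⟩
        · exact lt_asymm hy1 hy2
        · exact absurd hy2 hy1.ne'
      · rcases hy2 with hy2 | ⟨_, hy2'⟩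
        · exact absurd hy1 hy2.ne'
        · omega
  · intro x hx h1 h2
    obtain ⟨k, n, hkn⟩ : ∃ k n, c' x = toLex (k, n) := ⟨_, _, rfl⟩
    obtain ⟨a, ha, ha'⟩ := hmin (e.symm (k, n + 1))
    have hca := (hc' a k (n + 1)).2 ha.2
    refine ⟨a, ha.1, ?_, ?_, ?_⟩
    · rw [hca, hkn, Prod.Lex.toLex_lt_toLex]
      exact Or.inr ⟨rfl, by simp⟩
    · intro y hy hya
      have hcy := hya.trans hca
      rw [hr y k (n + 1) hcy]
      exact ha' y ⟨hy, (hc' y k (n + 1)).1 hcy⟩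
    · intro y _ hy1 hy2
      obtain ⟨k', n', hkn'⟩ : ∃ k n, c' y = toLex (k, n) := ⟨_, _, rfl⟩
      rw [hkn, hkn', Prod.Lex.toLex_lt_toLex] at hy1
      rw [hca, hkn', Prod.Lex.toLex_lt_toLex] at hy2
      simp only at hy1 hy2
      rcases hy1 with hy1 | ⟨hy1, hy1'⟩
      · rcases hy2 with hy2 | ⟨hy2, _⟩
        · exact lt_asymm hy1 hy2
        · exact absurd hy2 hy1.ne'
      · rcases hy2 with hy2 | ⟨_, hy2'⟩
        · exact absurd hy1 hy2.ne'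
        · omega

theorem sep_of_index {ι : Type v} (Q : Set X) (c : X → ι)
    (hc : ∀ x ∈ Q, ∀ᶠ y in 𝓝 x, y ∈ Q → c y = c x) {S T : Set ι} (hST : Disjoint S T) :
    Sep (Q ∩ c ⁻¹' S) (Q ∩ c ⁻¹' T) := by
  constructor
  · rintro x ⟨hx, hx'⟩
    filter_upwards [hc x hx] with y hy
    rintro ⟨hyQ, hyT⟩
    have hyT' : c y ∈ T := hyT
    rw [hy hyQ] at hyT'
    exact disjoint_left.1 hST hx' hyT'
  · rintro x ⟨hx, hx'⟩
    filter_upwards [hc x hx] with y hy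
    rintro ⟨hyQ, hyT⟩
    have hyT' : c y ∈ S := hyT
    rw [hy hyQ] at hyT'
    exact disjoint_left.1 hST hyT' hx'

theorem fin_sum [T1Space X] (hX : Scat X) {ι : Type v} (Q : Set X) (c : X → ι)
    (hc : ∀ x ∈ Q, ∀ᶠ y in 𝓝 x, y ∈ Q → c y = c x)
    (hO : ∀ i, Q ∩ c ⁻¹' {i} = ∅ ∨ Ord (Q ∩ c ⁻¹' {i})) {S : Set ι} (hS : S.Finite) :
    Q ∩ c ⁻¹' S = ∅ ∨ Ord (Q ∩ c ⁻¹' S) := by
  induction S, hS using Set.Finite.induction_on with
  | empty => left; simp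
  | @insert a S ha _ ih =>
    have e : Q ∩ c ⁻¹' (insert a S) = (Q ∩ c ⁻¹' {a}) ∪ (Q ∩ c ⁻¹' S) := by
      rw [insert_eq, preimage_union, inter_union_distrib_left]
    rw [e]
    exact Ord.sum hX (hO a) ih (sep_of_index Q c hc (disjoint_singleton_left.2 ha))

theorem free_sum [T1Space X] (hX : Scat X) {ι : Type v} (Q : Set X) (c : X → ι)
    (hc : ∀ x ∈ Q, ∀ᶠ y in 𝓝 x, y ∈ Q → c y = c x)
    (hO : ∀ i, Q ∩ c ⁻¹' {i} = ∅ ∨ Ord (Q ∩ c ⁻¹' {i})) : Q = ∅ ∨ Ord Q := by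
  classical
  set N : Set ι := {i | (Q ∩ c ⁻¹' {i}).Nonempty ∧ ¬ IsCompact (Q ∩ c ⁻¹' {i})} with hN
  set C : Set ι := {i | (Q ∩ c ⁻¹' {i}).Nonempty ∧ IsCompact (Q ∩ c ⁻¹' {i})} with hC
  have hdisj : Disjoint N C := by
    rw [disjoint_left]
    intro i h1 h2
    exact h1.2 h2.2
  have hcover : Q = (Q ∩ c ⁻¹' N) ∪ (Q ∩ c ⁻¹' C) := by
    ext x
    simp only [mem_union, mem_inter_iff, mem_preimage]
    constructor
    · intro hx
      have hne : (Q ∩ c ⁻¹' {c x}).Nonempty := ⟨x, hx, rfl⟩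
      by_cases hK : IsCompact (Q ∩ c ⁻¹' {c x})
      · exact Or.inr ⟨hx, hne, hK⟩
      · exact Or.inl ⟨hx, hne, hK⟩
    · rintro (h | h)
      · exact h.1
      · exact h.1
  -- general reduction to subtypes
  have red : ∀ (S : Set ι), S.Infinite → ∃ c' : X → S,
      (∀ x ∈ Q ∩ c ⁻¹' S, ∀ᶠ y in 𝓝 x, y ∈ Q ∩ c ⁻¹' S → c' y = c' x) ∧
      ∀ i : S, (Q ∩ c ⁻¹' S) ∩ c' ⁻¹' {i} = Q ∩ c ⁻¹' {i.1} := by
    intro S hS
    obtain ⟨i₀, hi₀⟩ := hS.nonempty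
    refine ⟨fun x => if h : c x ∈ S then ⟨c x, h⟩ else ⟨i₀, hi₀⟩, ?_, ?_⟩
    · rintro x ⟨hx, hx'⟩
      filter_upwards [hc x hx] with y hy
      rintro ⟨hyQ, hyS⟩
      have h1 := hy hyQ
      have hx'' : c x ∈ S := hx'
      have hyS' : c y ∈ S := hyS
      rw [dif_pos hx'', dif_pos hyS']
      exact Subtype.ext h1
    · rintro ⟨i, hi⟩
      ext x
      simp only [mem_inter_iff, mem_preimage, mem_singleton_iff]
      constructor
      · rintro ⟨⟨h1, h2⟩, h3⟩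
        rw [dif_pos h2] at h3
        exact ⟨h1, congrArg Subtype.val h3⟩
      · rintro ⟨h1, h2⟩
        have h3 : c x ∈ S := h2 ▸ hi
        refine ⟨⟨h1, h3⟩, ?_⟩
        rw [dif_pos h3]
        exact Subtype.ext h2
  have k1 : Q ∩ c ⁻¹' N = ∅ ∨ Ord (Q ∩ c ⁻¹' N) := by
    by_cases hfin : N.Finite
    · exact fin_sum hX Q c hc hO hfin
    · right
      obtain ⟨c', h1, h2⟩ := red N hfin
      haveI : Infinite N := Set.infinite_coe_iff.2 hfin
      apply inf_sum_noncompact hX _ c' h1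
      · intro i; rw [h2]; exact i.2.1
      · intro i; rw [h2]; exact (hO i).resolve_left i.2.1.ne_empty
      · intro i; rw [h2]; exact i.2.2
  have k2 : Q ∩ c ⁻¹' C = ∅ ∨ Ord (Q ∩ c ⁻¹' C) := by
    by_cases hfin : C.Finite
    · exact fin_sum hX Q c hc hO hfin
    · right
      obtain ⟨c', h1, h2⟩ := red C hfin
      haveI : Infinite C := Set.infinite_coe_iff.2 hfin
      apply inf_sum_compact _ c' h1
      · intro i; rw [h2]; exact i.2.1
      · intro i; rw [h2]; exact (hO i).resolve_left i.2.1.ne_empty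
      · intro i; rw [h2]; exact i.2.2
  rw [hcover]
  exact Ord.sum hX k1 k2 (sep_of_index Q c hc hdisj)

end Pool.Agent.D0H84.Galvin
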