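import Pool.Agent.D0H84.Galvin.C

/-! Gluing and the chain lemma in generalized ordered spaces. -/

set_option autoImplicit false

open Set Filter Topology

namespace Pool.Agent.D0H84.Galvin

variable {X : Type*} [TopologicalSpace X] [LinearOrder X]

/-- Generalized ordered spaces. -/
structure GO (X : Type*) [TopologicalSpace X] [LinearOrder X] : Prop where
  iio : ∀ a : X, IsOpen (Iio a)
  ioi : ∀ a : X, IsOpen (Ioi a)
  conv : ∀ (x : X) (U : Set X), U ∈ 𝓝 x → ∃ V, IsOpen V ∧ V.OrdConnected ∧ x ∈ V ∧ V ⊆ U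

/-- `C` is an admissible piece of `(J, r)`. -/
structure Adm (J : Set X) (r : X → X → Prop) (C : Set X) : Prop where
  sub : C ⊆ J
  clopen : IsClopen C
  ini : ∀ y ∈ C, ∀ y' ∈ J, y' ≤ y → y' ∈ C
  rini : ∀ y ∈ C, ∀ y' ∈ J, y' ∉ C → r y y'
  lo : LO C r

section Adm

variable {J : Set X} {r : X → X → Prop} (h : ∀ z ∈ J, ∃ C, Adm J r C ∧ z ∈ C)
include h

lemma adm_two {x y : X} (hx : x ∈ J) (hy : y ∈ J) : ∃ C, Adm J r C ∧ x ∈ C ∧ y ∈ C := by
  rcases le_total x y with h1 | h1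
  · obtain ⟨C, hC, hyC⟩ := h y hy
    exact ⟨C, hC, hC.ini y hyC x hx h1, hyC⟩
  · obtain ⟨C, hC, hxC⟩ := h x hx
    exact ⟨C, hC, hxC, hC.ini x hxC y hy h1⟩

lemma adm_three {x y z : X} (hx : x ∈ J) (hy : y ∈ J) (hz : z ∈ J) :
    ∃ C, Adm J r C ∧ x ∈ C ∧ y ∈ C ∧ z ∈ C := by
  rcases le_total x y with h1 | h1
  · obtain ⟨C, hC, hyC, hzC⟩ := adm_two h hy hz
    exact ⟨C, hC, hC.ini y hyC x hx h1, hyC, hzC⟩
  · obtain ⟨C, hC, hxC, hzC⟩ := adm_two h hx hz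
    exact ⟨C, hC, hxC, hC.ini x hxC y hy h1, hzC⟩

lemma adm_asymm {x y : X} (hx : x ∈ J) (hy : y ∈ J) (h1 : r x y) : ¬ r y x := by
  obtain ⟨C, hC, hxC, hyC⟩ := adm_two h hx hy
  exact hC.lo.asymm hxC hyC h1

theorem LO_of_adm : LO J r where
  irr := by
    intro x hx
    obtain ⟨C, hC, hxC⟩ := h x hx
    exact hC.lo.irr x hxC
  trans := by
    intro x hx y hy z hz h1 h2
    obtain ⟨C, hC, hxC, hyC, hzC⟩ := adm_three h hx hy hz
    exact hC.lo.trans x hxC y hyC z hzC h1 h2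
  tot := by
    intro x hx y hy hne
    obtain ⟨C, hC, hxC, hyC⟩ := adm_two h hx hy
    exact hC.lo.tot x hxC y hyC hne
  lo := by
    intro x hx a ha h1
    obtain ⟨C, hC, hxC, haC⟩ := adm_two h hx ha
    filter_upwards [hC.lo.lo x hxC a haC h1, hC.clopen.isOpen.mem_nhds hxC] with y hy hyC _
    exact hy hyC
  hi := by
    intro x hx a ha h1
    obtain ⟨C, hC, hxC, haC⟩ := adm_two h hx ha
    filter_upwards [hC.lo.hi x hxC a haC h1, hC.clopen.isOpen.mem_nhds hxC] with y hy hyC _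
    exact hy hyC
  left := by
    rintro x hx U hU ⟨y, hy, hyx⟩
    obtain ⟨C, hC, hxC, hyC⟩ := adm_two h hx hy
    obtain ⟨a, ha, h1, h2⟩ := hC.lo.left x hxC U hU ⟨y, hyC, hyx⟩
    refine ⟨a, hC.sub ha, h1, fun z hz h3 h4 => ?_⟩
    have hzC : z ∈ C := by
      by_contra hzC
      exact adm_asymm h hz hx h4 (hC.rini x hxC z hz hzC)
    exact h2 z hzC h3 h4
  right := by
    rintro x hx U hU ⟨y, hy, hyx⟩
    obtain ⟨C, hC, hxC, hyC⟩ := adm_two h hx hy
    obtain ⟨a, ha, h1, h2⟩ := hC.lo.right x hxC U hU ⟨y, hyC, hyx⟩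
    refine ⟨a, hC.sub ha, h1, fun z hz h3 h4 => ?_⟩
    have hzC : z ∈ C := by
      by_contra hzC
      exact adm_asymm h hz (hC.sub ha) h4 (hC.rini a ha z hz hzC)
    exact h2 z hzC h3 h4

end Adm

/-- Gluing at a point `x` which is a limit of `J` from the left. -/
theorem glue (hGO : GO X) {J P : Set X} {x : X} {r s : X → X → Prop}
    (hJ : ∀ y ∈ J, y < x) (hP : ∀ y ∈ P, x ≤ y) (hxP : x ∈ P) (hs : LO P s)
    (hsmin : ∀ y ∈ P, ¬ s y x) (hx : ∀ U ∈ 𝓝 x, ∃ y ∈ J, y ∈ U)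
    (h : ∀ z ∈ J, ∃ C, Adm J r C ∧ z ∈ C) : LO (J ∪ P) (sumr J P r s) := by
  have hJLO := LO_of_adm h
  have hJP : ∀ y ∈ J, y ∉ P := fun y hy hy' => absurd (hP y hy') (not_le.2 (hJ y hy))
  have hPJ : ∀ y ∈ P, y ∉ J := fun y hy hy' => hJP y hy' hy
  have hxmin : ∀ t ∈ P, t ≠ x → s x t := fun t ht hne =>
    (hs.tot t ht x hxP hne).resolve_left (hsmin t ht)
  refine ⟨?_, ?_, ?_, ?_, ?_, ?_, ?_⟩
  · rintro t ht (⟨h1, _, h2⟩ | ⟨h1, h2⟩ | ⟨h1, _, h2⟩)
    · exact hJLO.irr t h1 h2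
    · exact hJP t h1 h2
    · exact hs.irr t h1 h2
  · rintro t ht y hy z hz h1 h2
    rcases h1 with ⟨a1, a2, a3⟩ | ⟨a1, a2⟩ | ⟨a1, a2, a3⟩ <;>
      rcases h2 with ⟨b1, b2, b3⟩ | ⟨b1, b2⟩ | ⟨b1, b2, b3⟩
    · exact Or.inl ⟨a1, b2, hJLO.trans t a1 y a2 z b2 a3 b3⟩
    · exact Or.inr (Or.inl ⟨a1, b2⟩)
    · exact absurd b1 (hJP y a2)
    · exact absurd a2 (hJP y b1)
    · exact absurd a2 (hJP y b1)
    · exact Or.inr (Or.inl ⟨a1, b2⟩)
    · exact absurd a2 (hJP y b1)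
    · exact absurd a2 (hJP y b1)
    · exact Or.inr (Or.inr ⟨a1, b2, hs.trans t a1 y a2 z b2 a3 b3⟩)
  · rintro t (ht | ht) y (hy | hy) hne
    · rcases hJLO.tot t ht y hy hne with h1 | h1
      · exact Or.inl (Or.inl ⟨ht, hy, h1⟩)
      · exact Or.inr (Or.inl ⟨hy, ht, h1⟩)
    · exact Or.inl (Or.inr (Or.inl ⟨ht, hy⟩))
    · exact Or.inr (Or.inr (Or.inl ⟨hy, ht⟩))
    · rcases hs.tot t ht y hy hne with h1 | h1
      · exact Or.inl (Or.inr (Or.inr ⟨ht, hy, h1⟩))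
      · exact Or.inr (Or.inr (Or.inr ⟨hy, ht, h1⟩))
  · -- lo
    rintro t ht a ha (⟨a1, a2, a3⟩ | ⟨a1, a2⟩ | ⟨a1, a2, a3⟩)
    · obtain ⟨C, hC, htC⟩ := h t a1
      filter_upwards [hJLO.lo t a1 a a2 a3, hC.clopen.isOpen.mem_nhds htC] with y h1 h2 _
      exact Or.inl ⟨hC.sub h2, a2, h1 (hC.sub h2)⟩
    · obtain ⟨C, hC, htC⟩ := h t a1
      filter_upwards [hC.clopen.isOpen.mem_nhds htC] with y h2 _
      exact Or.inr (Or.inl ⟨hC.sub h2, a2⟩)
    · filter_upwards [hs.lo t a1 a a2 a3] with y h1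
      rintro (h2 | h2)
      · exact Or.inr (Or.inl ⟨h2, a2⟩)
      · exact Or.inr (Or.inr ⟨h2, a2, h1 h2⟩)
  · -- hi
    rintro t ht a ha (⟨a1, a2, a3⟩ | ⟨a1, a2⟩ | ⟨a1, a2, a3⟩)
    · obtain ⟨C, hC, htC⟩ := h t a2
      filter_upwards [hJLO.hi t a2 a a1 a3, hC.clopen.isOpen.mem_nhds htC] with y h1 h2 _
      exact Or.inl ⟨a1, hC.sub h2, h1 (hC.sub h2)⟩
    · obtain ⟨C, hC, haC⟩ := h a a1
      have htC : t ∉ C := fun h1 => hJP t (hC.sub h1) a2
      filter_upwards [hC.clopen.isClosed.isOpen_compl.mem_nhds htC] with y h1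
      rintro (h2 | h2)
      · exact Or.inl ⟨a1, h2, hC.rini a haC y h2 h1⟩
      · exact Or.inr (Or.inl ⟨a1, h2⟩)
    · have htx : x < t := by
        refine lt_of_le_of_ne (hP t a2) ?_
        rintro rfl
        exact hsmin a a1 a3
      filter_upwards [hs.hi t a2 a a1 a3, (hGO.ioi x).mem_nhds htx] with y h1 h2
      rintro (h3 | h3)
      · exact absurd (hJ y h3) (not_lt.2 (le_of_lt h2))
      · exact Or.inr (Or.inr ⟨a1, h3, h1 h3⟩)
  · -- left
    rintro t ht U hU ⟨y, hy, hyt⟩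
    rcases hyt with ⟨a1, a2, a3⟩ | ⟨a1, a2⟩ | ⟨a1, a2, a3⟩
    · obtain ⟨a, ha, h1, h2⟩ := hJLO.left t a2 U hU ⟨y, a1, a3⟩
      refine ⟨a, Or.inl ha, Or.inl ⟨ha, a2, h1⟩, ?_⟩
      rintro z hz h3 (⟨b1, b2, b3⟩ | ⟨b1, b2⟩ | ⟨b1, b2, b3⟩)
      · rcases h3 with ⟨c1, c2, c3⟩ | ⟨c1, c2⟩ | ⟨c1, c2, c3⟩
        · exact h2 z b1 c3 b3
        · exact absurd c2 (hJP z b1)
        · exact absurd c1 (hJP a ha)
      · exact absurd b2 (hJP t a2)
      · exact absurd b2 (hJP t a2)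
    · by_cases htx : t = x
      · subst htx
        obtain ⟨V, hVo, hVc, htV, hVU⟩ := hGO.conv t U hU
        obtain ⟨a₀, ha₀, ha₀V⟩ := hx V (hVo.mem_nhds htV)
        obtain ⟨C, hC, ha₀C⟩ := h a₀ ha₀
        have htC : t ∉ C := fun h1 => hJP t (hC.sub h1) a2
        obtain ⟨a, haJ, haC⟩ := hx Cᶜ (hC.clopen.isClosed.isOpen_compl.mem_nhds htC)
        refine ⟨a, Or.inl haJ, Or.inr (Or.inl ⟨haJ, a2⟩), ?_⟩
        rintro z hz h3 h4
        have hzJ : z ∈ J := by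
          rcases h4 with ⟨b1, _, _⟩ | ⟨b1, _⟩ | ⟨b1, _, b3⟩
          · exact b1
          · exact b1
          · exact absurd b3 (hsmin z b1)
        have haz : r a z := by
          rcases h3 with ⟨_, _, c3⟩ | ⟨_, c2⟩ | ⟨c1, _, _⟩
          · exact c3
          · exact absurd c2 (hJP z hzJ)
          · exact absurd c1 (hJP a haJ)
        have hzC : z ∉ C := fun hzC => adm_asymm h haJ hzJ haz (hC.rini z hzC a haJ haC)
        have hlt : a₀ < z := by
          by_contra hle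
          push Not at hle
          exact hzC (hC.ini a₀ ha₀C z hzJ hle)
        exact hVU (hVc.out ha₀V htV ⟨hlt.le, (hJ z hzJ).le⟩)
      · obtain ⟨a, ha, h1, h2⟩ := hs.left t a2 U hU ⟨x, hxP, hxmin t a2 htx⟩
        refine ⟨a, Or.inr ha, Or.inr (Or.inr ⟨ha, a2, h1⟩), ?_⟩
        intro z hz h3 h4
        have hzP : z ∈ P := by
          rcases h3 with ⟨c1, _, _⟩ | ⟨c1, _⟩ | ⟨_, c2, _⟩
          · exact absurd ha (hJP a c1)
          · exact absurd ha (hJP a c1)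
          · exact c2
        refine h2 z hzP ?_ ?_
        · rcases h3 with ⟨c1, _, _⟩ | ⟨c1, _⟩ | ⟨_, _, c3⟩
          · exact absurd ha (hJP a c1)
          · exact absurd ha (hJP a c1)
          · exact c3
        · rcases h4 with ⟨c1, _, _⟩ | ⟨c1, _⟩ | ⟨_, _, c3⟩
          · exact absurd hzP (hJP z c1)
          · exact absurd hzP (hJP z c1)
          · exact c3
    · have htx : t ≠ x := by
        rintro rfl
        exact hsmin y a1 a3
      obtain ⟨a, ha, h1, h2⟩ := hs.left t a2 U hU ⟨x, hxP, hxmin t a2 htx⟩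
      refine ⟨a, Or.inr ha, Or.inr (Or.inr ⟨ha, a2, h1⟩), ?_⟩
      intro z hz h3 h4
      have hzP : z ∈ P := by
        rcases h3 with ⟨c1, _, _⟩ | ⟨c1, _⟩ | ⟨_, c2, _⟩
        · exact absurd ha (hJP a c1)
        · exact absurd ha (hJP a c1)
        · exact c2
      refine h2 z hzP ?_ ?_
      · rcases h3 with ⟨c1, _, _⟩ | ⟨c1, _⟩ | ⟨_, _, c3⟩
        · exact absurd ha (hJP a c1)
        · exact absurd ha (hJP a c1)
        · exact c3
      · rcases h4 with ⟨c1, _, _⟩ | ⟨c1, _⟩ | ⟨_, _, c3⟩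
        · exact absurd hzP (hJP z c1)
        · exact absurd hzP (hJP z c1)
        · exact c3
  · -- right
    rintro t (ht | ht) U hU ⟨y, hy, hyt⟩
    · obtain ⟨C, hC, htC⟩ := h t ht
      have hxC : x ∉ C := fun h1 => hJP x (hC.sub h1) hxP
      obtain ⟨w, hwJ, hwC⟩ := hx Cᶜ (hC.clopen.isClosed.isOpen_compl.mem_nhds hxC)
      obtain ⟨a, ha, h1, h2⟩ := hJLO.right t ht U hU ⟨w, hwJ, hC.rini t htC w hwJ hwC⟩
      refine ⟨a, Or.inl ha, Or.inl ⟨ht, ha, h1⟩, ?_⟩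
      intro z hz h3 h4
      have hzJ : z ∈ J := by
        rcases h4 with ⟨b1, _, _⟩ | ⟨_, b2⟩ | ⟨_, b2, _⟩
        · exact b1
        · exact absurd b2 (hJP a ha)
        · exact absurd b2 (hJP a ha)
      refine h2 z hzJ ?_ ?_
      · rcases h3 with ⟨_, _, c3⟩ | ⟨_, c2⟩ | ⟨_, c2, _⟩
        · exact c3
        · exact absurd c2 (hJP z hzJ)
        · exact absurd c2 (hJP z hzJ)
      · rcases h4 with ⟨_, _, c3⟩ | ⟨_, c2⟩ | ⟨_, c2, _⟩
        · exact c3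
        · exact absurd c2 (hJP a ha)
        · exact absurd c2 (hJP a ha)
    · have hyP : y ∈ P ∧ s t y := by
        rcases hyt with ⟨b1, _, _⟩ | ⟨b1, _⟩ | ⟨_, b2, b3⟩
        · exact absurd ht (hJP t b1)
        · exact absurd ht (hJP t b1)
        · exact ⟨b2, b3⟩
      obtain ⟨a, ha, h1, h2⟩ := hs.right t ht U hU ⟨y, hyP⟩
      refine ⟨a, Or.inr ha, Or.inr (Or.inr ⟨ht, ha, h1⟩), ?_⟩
      intro z hz h3 h4
      have hzP : z ∈ P := by
        rcases h3 with ⟨b1, _, _⟩ | ⟨b1, _⟩ | ⟨_, b2, b3⟩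
        · exact absurd ht (hJP t b1)
        · exact absurd ht (hJP t b1)
        · exact b2
      refine h2 z hzP ?_ ?_
      · rcases h3 with ⟨b1, _, _⟩ | ⟨b1, _⟩ | ⟨_, b2, b3⟩
        · exact absurd ht (hJP t b1)
        · exact absurd ht (hJP t b1)
        · exact b3
      · rcases h4 with ⟨b1, _, _⟩ | ⟨b1, _⟩ | ⟨_, b2, b3⟩
        · exact absurd hzP (hJP z b1)
        · exact absurd hzP (hJP z b1)
        · exact b3

/-- Compact sets carry the given order. -/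
theorem LO_of_compact (hGO : GO X) {K : Set X} (hK : IsCompact K) : LO K (fun x y => x < y) where
  irr := fun x _ => lt_irrefl x
  trans := fun x _ y _ z _ h1 h2 => h1.trans h2
  tot := fun x _ y _ hne => lt_or_gt_of_ne hne
  lo := fun x _ a _ h => by
    filter_upwards [(hGO.iio a).mem_nhds h] with y hy _ using hy
  hi := fun x _ a _ h => by
    filter_upwards [(hGO.ioi a).mem_nhds h] with y hy _ using hy
  left := by
    rintro x hx U hU ⟨y, hy, hyx⟩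
    obtain ⟨V, hVU, hV, hxV⟩ := mem_nhds_iff.1 hU
    haveI : ClosedIciTopology X := ⟨fun a => by
      rw [← isOpen_compl_iff, compl_Ici]; exact hGO.iio a⟩
    have hS : IsCompact (K ∩ (Ioi x ∪ V)ᶜ) := hK.inter_right (((hGO.ioi x).union hV).isClosed_compl)
    rcases (K ∩ (Ioi x ∪ V)ᶜ).eq_empty_or_nonempty with he | hne
    · refine ⟨y, hy, hyx, fun z hz _ h2 => ?_⟩
      by_contra hzU
      have : z ∈ K ∩ (Ioi x ∪ V)ᶜ := ⟨hz, fun h3 => by
        rcases h3 with h3 | h3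
        · exact lt_asymm h2 h3
        · exact hzU (hVU h3)⟩
      rw [he] at this
      exact this
    · obtain ⟨a, ha, ha'⟩ := hS.exists_isGreatest hne
      have hax : a < x := by
        have h1 : ¬ x < a := fun h1 => ha.2 (Or.inl h1)
        refine lt_of_le_of_ne (not_lt.1 h1) ?_
        rintro rfl
        exact ha.2 (Or.inr hxV)
      refine ⟨a, ha.1, hax, fun z hz h1 h2 => ?_⟩
      by_contra hzU
      have : z ∈ K ∩ (Ioi x ∪ V)ᶜ := ⟨hz, fun h3 => by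
        rcases h3 with h3 | h3
        · exact lt_asymm h2 h3
        · exact hzU (hVU h3)⟩
      exact absurd (ha' this) (not_le.2 h1)
  right := by
    rintro x hx U hU ⟨y, hy, hyx⟩
    obtain ⟨V, hVU, hV, hxV⟩ := mem_nhds_iff.1 hU
    haveI : ClosedIicTopology X := ⟨fun a => by
      rw [← isOpen_compl_iff, compl_Iic]; exact hGO.ioi a⟩
    have hS : IsCompact (K ∩ (Iio x ∪ V)ᶜ) := hK.inter_right (((hGO.iio x).union hV).isClosed_compl)
    rcases (K ∩ (Iio x ∪ V)ᶜ).eq_empty_or_nonempty with he | hne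
    · refine ⟨y, hy, hyx, fun z hz h2 _ => ?_⟩
      by_contra hzU
      have : z ∈ K ∩ (Iio x ∪ V)ᶜ := ⟨hz, fun h3 => by
        rcases h3 with h3 | h3
        · exact lt_asymm h2 h3
        · exact hzU (hVU h3)⟩
      rw [he] at this
      exact this
    · obtain ⟨a, ha, ha'⟩ := hS.exists_isLeast hne
      have hax : x < a := by
        have h1 : ¬ a < x := fun h1 => ha.2 (Or.inl h1)
        refine lt_of_le_of_ne (not_lt.1 h1) ?_
        rintro rfl
        exact ha.2 (Or.inr hxV)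
      refine ⟨a, ha.1, hax, fun z hz h1 h2 => ?_⟩
      by_contra hzU
      have : z ∈ K ∩ (Iio x ∪ V)ᶜ := ⟨hz, fun h3 => by
        rcases h3 with h3 | h3
        · exact lt_asymm h1 h3
        · exact hzU (hVU h3)⟩
      exact absurd (ha' this) (not_le.2 h2)

end Pool.Agent.D0H84.Galvin
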