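import Pool.Agent.D0H84.Galvin.D

/-! The chain lemma. -/

set_option autoImplicit false

open Set Filter Topology

namespace Pool.Agent.D0H84.Galvin

variable {X : Type*} [TopologicalSpace X] [LinearOrder X]

/-- Bounded clopen initial segments of `Z`. -/
structure BI (Z C : Set X) : Prop where
  sub : C ⊆ Z
  clopen : IsClopen C
  ini : ∀ y ∈ C, ∀ y' ∈ Z, y' ≤ y → y' ∈ C
  bdd : ∃ w ∈ Z, w ∉ C

/-- Partial orders of initial segments. -/
structure Part (Z : Set X) (p : Set X × (X → X → Prop)) : Prop where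
  sub : p.1 ⊆ Z
  ini : ∀ y ∈ p.1, ∀ y' ∈ Z, y' ≤ y → y' ∈ p.1
  adm : ∀ z ∈ p.1, ∃ C, BI Z C ∧ Adm p.1 p.2 C ∧ z ∈ C

/-- Extension. -/
structure Ext (p q : Set X × (X → X → Prop)) : Prop where
  sub : p.1 ⊆ q.1
  iff : ∀ x ∈ p.1, ∀ y ∈ p.1, (p.2 x y ↔ q.2 x y)
  lt : ∀ x ∈ p.1, ∀ y ∈ q.1, y ∉ p.1 → q.2 x y

lemma Ext.refl (p : Set X × (X → X → Prop)) : Ext p p :=
  ⟨subset_rfl, fun _ _ _ _ => Iff.rfl, fun _ _ _ hy hy' => absurd hy hy'⟩

lemma Ext.trans {p q s : Set X × (X → X → Prop)} (h : Ext p q) (h' : Ext q s) : Ext p s := by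
  refine ⟨h.sub.trans h'.sub, fun x hx y hy => (h.iff x hx y hy).trans
    (h'.iff x (h.sub hx) y (h.sub hy)), fun x hx y hy hyp => ?_⟩
  by_cases hyq : y ∈ q.1
  · exact (h'.iff x (h.sub hx) y hyq).1 (h.lt x hx y hyq hyp)
  · exact h'.lt x (h.sub hx) y hy hyq

lemma exists_upper {Z : Set X} (c : Set {p : Set X × (X → X → Prop) // Part Z p})
    (hc : IsChain (fun p q => Ext p.1 q.1) c) :
    ∃ ub : {p : Set X × (X → X → Prop) // Part Z p}, ∀ a ∈ c, Ext a.1 ub.1 := by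
  classical
  set J : Set X := {x | ∃ p ∈ c, x ∈ p.1.1} with hJ
  set r : X → X → Prop := fun x y => ∃ p ∈ c, x ∈ p.1.1 ∧ y ∈ p.1.1 ∧ p.1.2 x y with hr
  have hcomp : ∀ p ∈ c, ∀ q ∈ c, Ext p.1 q.1 ∨ Ext q.1 p.1 := by
    intro p hp q hq
    by_cases hE : p = q
    · subst hE
      exact Or.inl (Ext.refl _)
    · exact hc hp hq hE
  have hiff : ∀ p ∈ c, ∀ x ∈ p.1.1, ∀ y ∈ p.1.1, (p.1.2 x y ↔ r x y) := by
    intro p hp x hx y hy
    constructor
    · intro h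
      exact ⟨p, hp, hx, hy, h⟩
    · rintro ⟨q, hq, hxq, hyq, h⟩
      rcases hcomp p hp q hq with h1 | h1
      · exact (h1.iff x hx y hy).2 h
      · exact (h1.iff x hxq y hyq).1 h
  have hlt : ∀ p ∈ c, ∀ x ∈ p.1.1, ∀ y ∈ J, y ∉ p.1.1 → r x y := by
    rintro p hp x hx y ⟨q, hq, hyq⟩ hyp
    rcases hcomp p hp q hq with h1 | h1
    · exact ⟨q, hq, h1.sub hx, hyq, h1.lt x hx y hyq hyp⟩
    · exact absurd (h1.sub hyq) hyp
  refine ⟨⟨(J, r), ?_, ?_, ?_⟩, ?_⟩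
  · rintro x ⟨p, hp, hx⟩
    exact p.2.sub hx
  · rintro y ⟨p, hp, hy⟩ y' hy' hle
    exact ⟨p, hp, p.2.ini y hy y' hy' hle⟩
  · rintro z ⟨p, hp, hz⟩
    obtain ⟨C, hC, hC', hzC⟩ := p.2.adm z hz
    refine ⟨C, hC, ⟨fun x hx => ⟨p, hp, hC'.sub hx⟩, hC'.clopen, ?_, ?_, ?_⟩, hzC⟩
    · rintro y hy y' ⟨q, hq, hy'⟩ hle
      exact hC.ini y hy y' (q.2.sub hy') hle
    · rintro y hy y' hy' hy'C
      by_cases h1 : y' ∈ p.1.1
      · exact (hiff p hp y (hC'.sub hy) y' h1).1 (hC'.rini y hy y' h1 hy'C)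
      · exact hlt p hp y (hC'.sub hy) y' hy' h1
    · exact hC'.lo.congr (fun x hx y hy => hiff p hp x (hC'.sub hx) y (hC'.sub hy))
  · intro p hp
    exact ⟨fun x hx => ⟨p, hp, hx⟩, hiff p hp, hlt p hp⟩

lemma extend {Z J P C' : Set X} {r s : X → X → Prop} (hp : Part Z (J, r)) (hC' : BI Z C')
    (hJP : J ∪ P = C') (hd : ∀ y ∈ J, y ∉ P) (hLO : LO C' (sumr J P r s)) :
    Part Z (C', sumr J P r s) ∧ Ext (J, r) (C', sumr J P r s) := by
  have hiff : ∀ x ∈ J, ∀ y ∈ J, (r x y ↔ sumr J P r s x y) := by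
    intro x hx y hy
    constructor
    · intro h
      exact Or.inl ⟨hx, hy, h⟩
    · rintro (⟨_, _, h⟩ | ⟨_, h⟩ | ⟨h, _⟩)
      · exact h
      · exact absurd h (hd y hy)
      · exact absurd h (hd x hx)
  refine ⟨⟨hC'.sub, hC'.ini, ?_⟩, ⟨?_, hiff, ?_⟩⟩
  · intro z hz
    simp only at hz
    rw [← hJP] at hz
    rcases hz with hz | hz
    · obtain ⟨C, hC, hCa, hzC⟩ := hp.adm z hz
      have hCJ : C ⊆ J := hCa.sub
      refine ⟨C, hC, ⟨?_, hCa.clopen, ?_, ?_, ?_⟩, hzC⟩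
      · intro y hy
        simp only
        rw [← hJP]
        exact Or.inl (hCJ hy)
      · intro y hy y' hy' hle
        exact hC.ini y hy y' (hC'.sub hy') hle
      · intro y hy y' hy' hy'C
        simp only at hy'
        rw [← hJP] at hy'
        rcases hy' with hy' | hy'
        · exact Or.inl ⟨hCJ hy, hy', hCa.rini y hy y' hy' hy'C⟩
        · exact Or.inr (Or.inl ⟨hCJ hy, hy'⟩)
      · exact hCa.lo.congr (fun x hx y hy => hiff x (hCJ hx) y (hCJ hy))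
    · have hzC' : z ∈ C' := by
        rw [← hJP]
        exact Or.inr hz
      exact ⟨C', hC', ⟨subset_rfl, hC'.clopen, fun y hy y' hy' hle => hC'.ini y hy y'
        (hC'.sub hy') hle, fun _ _ y' hy' hy'C => absurd hy' hy'C, hLO⟩, hzC'⟩
  · intro y hy
    simp only
    rw [← hJP]
    exact Or.inl hy
  · intro x hx y hy hyJ
    simp only at hy
    rw [← hJP] at hy
    exact Or.inr (Or.inl ⟨hx, hy.resolve_left hyJ⟩)

theorem chain_lemma (hX : Scat X) (hGO : GO X) {Z : Set X}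
    (hZcl : ∀ z ∈ Z, IsClosed (Z ∩ Iic z))
    (H0 : ∀ z ∈ Z, ∃ C, BI Z C ∧ z ∈ C)
    (H1 : ∀ C C', IsClopen C → C ⊆ Z → (∀ y ∈ C, ∀ y' ∈ Z, y' ≤ y → y' ∈ C) → BI Z C' →
      C' \ C = ∅ ∨ Ord (C' \ C))
    (H2 : ∀ C', BI Z C' → ∀ x ∈ C', OrdEnd (C' ∩ Ici x) x) :
    (∃ r, ∀ z ∈ Z, ∃ C, BI Z C ∧ Adm Z r C ∧ z ∈ C) ∨
    ∃ C, IsClopen C ∧ C ⊆ Z ∧ (∀ y ∈ C, ∀ y' ∈ Z, y' ≤ y → y' ∈ C) ∧ (∃ w ∈ Z, w ∉ C) ∧
      (C = ∅ ∨ Ord C) ∧ ∀ C', BI Z C' → C ⊆ C' → IsCompact (C' \ C) := by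
  classical
  obtain ⟨⟨⟨J, r⟩, hp⟩, hmax⟩ := exists_maximal_of_chains_bounded
    (r := fun p q : {p : Set X × (X → X → Prop) // Part Z p} => Ext p.1 q.1)
    (fun c hc => exists_upper c hc) (fun h1 h2 => h1.trans h2)
  have hmax' : ∀ q, Part Z q → Ext (J, r) q → q.1 ⊆ J := fun q hq hE =>
    (hmax ⟨q, hq⟩ hE).sub
  have hadm : ∀ z ∈ J, ∃ C, Adm J r C ∧ z ∈ C := by
    intro z hz
    obtain ⟨C, _, hC, hzC⟩ := hp.adm z hz
    exact ⟨C, hC, hzC⟩
  have hJLO := LO_of_adm hadm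
  by_cases hJZ : J = Z
  · left
    subst hJZ
    exact ⟨r, hp.adm⟩
  have hJsub : J ⊆ Z := hp.sub
  have hini : ∀ y ∈ J, ∀ y' ∈ Z, y' ≤ y → y' ∈ J := hp.ini
  obtain ⟨w, hwZ, hwJ⟩ : ∃ w ∈ Z, w ∉ J := by
    by_contra hcon
    push Not at hcon
    exact hJZ (Subset.antisymm hJsub hcon)
  have hlt_of : ∀ y ∈ J, ∀ t ∈ Z, t ∉ J → y < t := by
    intro y hy t ht htJ
    by_contra hle
    push Not at hle
    exact htJ (hini y hy t ht hle)
  have hJopen : IsOpen J := by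
    rw [isOpen_iff_mem_nhds]
    intro z hz
    obtain ⟨C, hC, hzC⟩ := hadm z hz
    exact Filter.mem_of_superset (hC.clopen.isOpen.mem_nhds hzC) hC.sub
  by_cases hcl : IsClosed J
  · right
    have hJclopen : IsClopen J := ⟨hcl, hJopen⟩
    refine ⟨J, hJclopen, hJsub, hini, ⟨w, hwZ, hwJ⟩, Or.inr ⟨r, hJLO⟩, ?_⟩
    intro C' hC' hJC'
    by_contra hnc
    have hPne : (C' \ J).Nonempty := by
      rw [nonempty_iff_ne_empty]
      intro he
      rw [he] at hnc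
      exact hnc isCompact_empty
    have hPord := (H1 J C' hJclopen hJsub hini hC').resolve_left hPne.ne_empty
    have hS : Sep J (C' \ J) := by
      constructor
      · intro x hx
        filter_upwards [hJopen.mem_nhds hx] with y hy hy'
        exact hy'.2 hy
      · intro x hx
        filter_upwards [hcl.isOpen_compl.mem_nhds hx.2] with y hy hy'
        exact hy hy'
    obtain ⟨s, hs, hmatch⟩ : ∃ s, LO (C' \ J) s ∧ ((∃ m ∈ J, ∀ y ∈ J, ¬ r m y) ↔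
        ∃ m ∈ C' \ J, ∀ y ∈ C' \ J, ¬ s y m) := by
      by_cases hb : ∃ m ∈ J, ∀ y ∈ J, ¬ r m y
      · obtain ⟨x, s, h1, h2, h3⟩ := end_of_ord hX hPne hPord
        exact ⟨s, h1, fun _ => ⟨x, h2, h3⟩, fun _ => hb⟩
      · obtain ⟨s, h1, h2⟩ := noMin_of_ord hPord hnc
        refine ⟨s, h1, fun h => absurd h hb, ?_⟩
        rintro ⟨m, hm, hm'⟩
        obtain ⟨y, hy, hym⟩ := h2 m hm
        exact absurd hym (hm' y hy)
    have hLO := hJLO.sum hs hS hmatch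
    have hU : J ∪ C' \ J = C' := by
      rw [union_diff_self, union_eq_self_of_subset_left hJC']
    rw [hU] at hLO
    obtain ⟨h1, h2⟩ := extend hp hC' hU (fun y hy hy' => hy'.2 hy) hLO
    obtain ⟨t, ht⟩ := hPne
    exact ht.2 (hmax' _ h1 h2 ht.1)
  · -- `J` is not closed
    exfalso
    obtain ⟨x, hx, hxJ⟩ : ∃ x ∈ closure J, x ∉ J := by
      by_contra hcon
      push Not at hcon
      exact hcl (isClosed_of_closure_subset hcon)
    have hxZ : x ∈ Z ∩ Iic w := by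
      have : closure J ⊆ Z ∩ Iic w := closure_minimal
        (fun y hy => ⟨hJsub hy, (hlt_of y hy w hwZ hwJ).le⟩) (hZcl w hwZ)
      exact this hx
    have hJx : ∀ y ∈ J, y < x := fun y hy => hlt_of y hy x hxZ.1 hxJ
    have hxlim : ∀ U ∈ 𝓝 x, ∃ y ∈ J, y ∈ U := by
      intro U hU
      obtain ⟨y, hy1, hy2⟩ := mem_closure_iff_nhds.1 hx U hU
      exact ⟨y, hy2, hy1⟩
    obtain ⟨C', hC', hxC'⟩ := H0 x hxZ.1
    obtain ⟨s, hs, hxP, hsmin⟩ := H2 C' hC' x hxC'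
    have hU : J ∪ (C' ∩ Ici x) = C' := by
      ext y
      constructor
      · rintro (hy | hy)
        · exact hC'.ini x hxC' y (hJsub hy) (hJx y hy).le
        · exact hy.1
      · intro hy
        by_cases hxy : x ≤ y
        · exact Or.inr ⟨hy, hxy⟩
        · left
          push Not at hxy
          by_contra hyJ
          obtain ⟨t, ht, hty⟩ := hxlim (Ioi y) ((hGO.ioi y).mem_nhds hxy)
          exact lt_asymm (hlt_of t ht y (hC'.sub hy) hyJ) hty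
    have hd : ∀ y ∈ J, y ∉ C' ∩ Ici x := fun y hy hy' => absurd (hJx y hy) (not_lt.2 hy'.2)
    have hLO := glue hGO hJx (fun y hy => hy.2) hxP hs hsmin hxlim hadm
    rw [hU] at hLO
    obtain ⟨h1, h2⟩ := extend hp hC' hU hd hLO
    exact hxJ (hmax' _ h1 h2 hxC')

/-- First consequence: a set without maximum. -/
theorem ord_of_chain [T1Space X] (hX : Scat X) (hGO : GO X) {Z : Set X}
    (hZcl : ∀ z ∈ Z, IsClosed (Z ∩ Iic z))
    (H0 : ∀ z ∈ Z, ∃ C, BI Z C ∧ z ∈ C)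
    (H1 : ∀ C C', IsClopen C → C ⊆ Z → (∀ y ∈ C, ∀ y' ∈ Z, y' ≤ y → y' ∈ C) → BI Z C' →
      C' \ C = ∅ ∨ Ord (C' \ C))
    (H2 : ∀ C', BI Z C' → ∀ x ∈ C', OrdEnd (C' ∩ Ici x) x) : Ord Z := by
  rcases chain_lemma hX hGO hZcl H0 H1 H2 with ⟨r, hr⟩ | ⟨C, hC, hCZ, hCi, ⟨w, hw, hwC⟩, hCO, hK⟩
  · refine ⟨r, LO_of_adm (fun z hz => ?_)⟩
    obtain ⟨C, _, hC, hzC⟩ := hr z hz
    exact ⟨C, hC, hzC⟩
  · have hlt : ∀ y ∈ C, ∀ t ∈ Z, t ∉ C → y < t := by
      intro y hy t ht htC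
      by_contra hle
      push Not at hle
      exact htC (hCi y hy t ht hle)
    have hF : Ord (Z \ C) := by
      refine ⟨fun x y => x < y, LO_of_adm (fun z hz => ?_)⟩
      obtain ⟨C', hC', hzC'⟩ := H0 z hz.1
      have hCC' : C ⊆ C' := fun y hy => hC'.ini z hzC' y (hCZ hy) (hlt y hy z hz.1 hz.2).le
      refine ⟨C' \ C, ⟨diff_subset_diff_left hC'.sub, hC'.clopen.diff hC, ?_, ?_,
        LO_of_compact hGO (hK C' hC' hCC')⟩, hzC', hz.2⟩
      · intro y hy y' hy' hle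
        exact ⟨hC'.ini y hy.1 y' hy'.1 hle, hy'.2⟩
      · intro y hy y' hy' hy'C
        have h1 : y' ∉ C' := fun h => hy'C ⟨h, hy'.2⟩
        by_contra hle
        push Not at hle
        exact h1 (hC'.ini y hy.1 y' hy'.1 hle)
    have hS : Sep C (Z \ C) := by
      constructor
      · intro x hx
        filter_upwards [hC.isOpen.mem_nhds hx] with y hy hy'
        exact hy'.2 hy
      · intro x hx
        filter_upwards [hC.isClosed.isOpen_compl.mem_nhds hx.2] with y hy hy'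
        exact hy hy'
    have := Ord.sum hX hCO (Or.inr hF) hS
    rw [union_diff_self, union_eq_self_of_subset_left hCZ] at this
    rcases this with h | h
    · rw [h] at hw
      exact absurd hw (notMem_empty _)
    · exact h

/-- Second consequence: a set with a limit point at its right end. -/
theorem ordEnd_of_chain [T1Space X] (hX : Scat X) (hGO : GO X) {Z : Set X} {p : X}
    (hZp : ∀ z ∈ Z, z < p) (hlim : ∀ U ∈ 𝓝 p, ∃ y ∈ Z, y ∈ U)
    (hZcl : ∀ z ∈ Z, IsClosed (Z ∩ Iic z))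
    (H0 : ∀ z ∈ Z, ∃ C, BI Z C ∧ z ∈ C)
    (H1 : ∀ C C', IsClopen C → C ⊆ Z → (∀ y ∈ C, ∀ y' ∈ Z, y' ≤ y → y' ∈ C) → BI Z C' →
      C' \ C = ∅ ∨ Ord (C' \ C))
    (H2 : ∀ C', BI Z C' → ∀ x ∈ C', OrdEnd (C' ∩ Ici x) x) : OrdEnd (Z ∪ {p}) p := by
  have hpP : LO {p} (fun _ _ => False) := by
    refine ⟨fun _ _ h => h, fun _ _ _ _ _ _ h _ => h, ?_, fun _ _ _ _ h => h.elim,
      fun _ _ _ _ h => h.elim, ?_, ?_⟩
    · intro x hx y hy hne
      exact absurd ((show x = p from hx).trans (show y = p from hy).symm) hne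
    · rintro x hx U hU ⟨y, _, h⟩
      exact h.elim
    · rintro x hx U hU ⟨y, _, h⟩
      exact h.elim
  -- general gluing
  have key : ∀ (J : Set X) (r : X → X → Prop), J ⊆ Z → (∀ U ∈ 𝓝 p, ∃ y ∈ J, y ∈ U) →
      (∀ z ∈ J, ∃ C, Adm J r C ∧ z ∈ C) → OrdEnd (J ∪ {p}) p := by
    intro J r hJZ hJlim hadm
    have hJp : ∀ y ∈ J, y < p := fun y hy => hZp y (hJZ hy)
    have h := glue hGO hJp (P := {p}) (fun y hy => (show y = p from hy).ge) rfl hpP
      (fun _ _ h => h) hJlim hadm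
    refine ⟨_, h.flip, Or.inr rfl, ?_⟩
    rintro y hy (⟨h1, _⟩ | ⟨h1, _⟩ | ⟨_, _, h1⟩)
    · exact lt_irrefl _ (hJp p h1)
    · exact lt_irrefl _ (hJp p h1)
    · exact h1
  rcases chain_lemma hX hGO hZcl H0 H1 H2 with ⟨r, hr⟩ | ⟨C, hC, hCZ, hCi, ⟨w, hw, hwC⟩, hCO, hK⟩
  · refine key Z r subset_rfl hlim (fun z hz => ?_)
    obtain ⟨C, _, hC, hzC⟩ := hr z hz
    exact ⟨C, hC, hzC⟩
  · have hlt : ∀ y ∈ C, ∀ t ∈ Z, t ∉ C → y < t := by
      intro y hy t ht htC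
      by_contra hle
      push Not at hle
      exact htC (hCi y hy t ht hle)
    have hpC : p ∉ C := fun h => lt_irrefl _ (hZp p (hCZ h))
    have hF : OrdEnd (Z \ C ∪ {p}) p := by
      refine key (Z \ C) (fun x y => x < y) diff_subset ?_ (fun z hz => ?_)
      · intro U hU
        obtain ⟨y, hy, hy'⟩ := hlim (U ∩ Cᶜ) (inter_mem hU
          (hC.isClosed.isOpen_compl.mem_nhds hpC))
        exact ⟨y, ⟨hy, hy'.2⟩, hy'.1⟩
      · obtain ⟨C', hC', hzC'⟩ := H0 z hz.1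
        have hCC' : C ⊆ C' := fun y hy => hC'.ini z hzC' y (hCZ hy) (hlt y hy z hz.1 hz.2).le
        refine ⟨C' \ C, ⟨diff_subset_diff_left hC'.sub, hC'.clopen.diff hC, ?_, ?_,
          LO_of_compact hGO (hK C' hC' hCC')⟩, hzC', hz.2⟩
        · intro y hy y' hy' hle
          exact ⟨hC'.ini y hy.1 y' hy'.1 hle, hy'.2⟩
        · intro y hy y' hy' hy'C
          have h1 : y' ∉ C' := fun h => hy'C ⟨h, hy'.2⟩
          by_contra hle
          push Not at hle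
          exact h1 (hC'.ini y hy.1 y' hy'.1 hle)
    have hS : Sep (Z \ C ∪ {p}) C := by
      constructor
      · intro x hx
        have hxC : x ∉ C := by
          rcases hx with hx | hx
          · exact hx.2
          · rw [show x = p from hx]
            exact hpC
        exact hC.isClosed.isOpen_compl.mem_nhds hxC
      · intro x hx
        filter_upwards [hC.isOpen.mem_nhds hx] with y hy hy'
        rcases hy' with hy' | hy'
        · exact hy'.2 hy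
        · rw [show y = p from hy'] at hy
          exact hpC hy
    have := hF.sum hX hCO hS
    have e : Z \ C ∪ {p} ∪ C = Z ∪ {p} := by
      rw [union_assoc, union_comm {p} C, ← union_assoc, diff_union_self,
        union_eq_self_of_subset_right hCZ]
    rwa [e] at this

end Pool.Agent.D0H84.Galvin
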