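import Pool.Agent.D0H84.Galvin.E

/-! Cuts, good sets. -/

set_option autoImplicit false

open Set Filter Topology

namespace Pool.Agent.D0H84.Galvin

variable {X : Type*} [TopologicalSpace X] [LinearOrder X]

lemma GO.t1 (hGO : GO X) : T1Space X := by
  refine ⟨fun x => ?_⟩
  rw [← isOpen_compl_iff]
  have : ({x} : Set X)ᶜ = Iio x ∪ Ioi x := by
    ext y
    simp only [mem_compl_iff, mem_singleton_iff, mem_union, mem_Iio, mem_Ioi]
    exact lt_or_lt_iff_ne.symm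
  rw [this]
  exact (hGO.iio x).union (hGO.ioi x)

lemma GO.iic (hGO : GO X) (x : X) : IsClosed (Iic x) := by
  rw [← isOpen_compl_iff, compl_Iic]
  exact hGO.ioi x

lemma GO.ici (hGO : GO X) (x : X) : IsClosed (Ici x) := by
  rw [← isOpen_compl_iff, compl_Ici]
  exact hGO.iio x

/-- Cuts between two points. -/
lemma cut (hX : Scat X) (hGO : GO X) {z w : X} (h : z < w) :
    ∃ C : Set X, IsClopen C ∧ IsLowerSet C ∧ z ∈ C ∧ w ∉ C := by
  rcases (Ioo z w).eq_empty_or_nonempty with he | hne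
  · refine ⟨Iic z, ⟨hGO.iic z, ?_⟩, isLowerSet_Iic z, le_rfl, not_le.2 h⟩
    have : Iic z = Iio w := by
      ext y
      simp only [mem_Iic, mem_Iio]
      constructor
      · intro h1
        exact lt_of_le_of_lt h1 h
      · intro h1
        by_contra h2
        push Not at h2
        have : y ∈ Ioo z w := ⟨h2, h1⟩
        rw [he] at this
        exact this
    rw [this]
    exact hGO.iio w
  · obtain ⟨y, hy, U, hU, hUy⟩ := hX _ hne
    have hyo : IsOpen ({y} : Set X) := by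
      rw [← hUy]
      exact hU.inter ((hGO.ioi z).inter (hGO.iio w))
    refine ⟨Iic y, ⟨hGO.iic y, ?_⟩, isLowerSet_Iic y, hy.1.le, not_le.2 hy.2⟩
    have : Iic y = Iio y ∪ {y} := by
      ext t
      simp only [mem_Iic, mem_union, mem_Iio, mem_singleton_iff]
      exact le_iff_lt_or_eq
    rw [this]
    exact (hGO.iio y).union hyo

/-- Small clopen convex neighbourhoods. -/
lemma exists_nbhd (hX : Scat X) (hGO : GO X) {p : X} {U : Set X} (hU : U ∈ 𝓝 p) :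
    ∃ N : Set X, IsClopen N ∧ N.OrdConnected ∧ p ∈ N ∧ N ⊆ U := by
  obtain ⟨V, hV, hVc, hpV, hVU⟩ := hGO.conv p U hU
  obtain ⟨L, hL, hLu, hpL, hLV⟩ : ∃ L : Set X, IsClopen L ∧ IsUpperSet L ∧ p ∈ L ∧
      ∀ y ∈ L, y < p → y ∈ V := by
    by_cases h : ∃ z ∈ V, z < p
    · obtain ⟨z, hz, hzp⟩ := h
      obtain ⟨C, hC, hCl, hzC, hpC⟩ := cut hX hGO hzp
      refine ⟨Cᶜ, hC.compl, hCl.compl, hpC, fun y hy hyp => ?_⟩
      have hzy : z < y := by
        by_contra h1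
        push Not at h1
        exact hy (hCl h1 hzC)
      exact hVc.out hz hpV ⟨hzy.le, hyp.le⟩
    · push Not at h
      refine ⟨Ici p, ⟨hGO.ici p, ?_⟩, isUpperSet_Ici p, self_mem_Ici,
        fun y hy hyp => absurd hyp (not_lt.2 hy)⟩
      have : Ici p = V ∪ Ioi p := by
        ext y
        constructor
        · intro hy
          rcases eq_or_lt_of_le (show p ≤ y from hy) with h1 | h1
          · left; rw [← h1]; exact hpV
          · exact Or.inr h1
        · rintro (hy | hy)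
          · exact h y hy
          · exact le_of_lt hy
      rw [this]
      exact hV.union (hGO.ioi p)
  obtain ⟨R, hR, hRu, hpR, hRV⟩ : ∃ L : Set X, IsClopen L ∧ IsLowerSet L ∧ p ∈ L ∧
      ∀ y ∈ L, p < y → y ∈ V := by
    by_cases h : ∃ z ∈ V, p < z
    · obtain ⟨z, hz, hzp⟩ := h
      obtain ⟨C, hC, hCl, hpC, hzC⟩ := cut hX hGO hzp
      refine ⟨C, hC, hCl, hpC, fun y hy hyp => ?_⟩
      have hzy : y < z := by
        by_contra h1
        push Not at h1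
        exact hzC (hCl h1 hy)
      exact hVc.out hpV hz ⟨hyp.le, hzy.le⟩
    · push Not at h
      refine ⟨Iic p, ⟨hGO.iic p, ?_⟩, isLowerSet_Iic p, self_mem_Iic,
        fun y hy hyp => absurd hyp (not_lt.2 hy)⟩
      have : Iic p = V ∪ Iio p := by
        ext y
        constructor
        · intro hy
          rcases eq_or_lt_of_le (show y ≤ p from hy) with h1 | h1
          · left; rw [h1]; exact hpV
          · exact Or.inr h1
        · rintro (hy | hy)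
          · exact h y hy
          · exact le_of_lt hy
      rw [this]
      exact hV.union (hGO.iio p)
  refine ⟨L ∩ R, hL.inter hR, hLu.ordConnected.inter hRu.ordConnected, ⟨hpL, hpR⟩, ?_⟩
  rintro y ⟨hyL, hyR⟩
  apply hVU
  rcases lt_trichotomy y p with h | h | h
  · exact hLV y hyL h
  · rw [h]; exact hpV
  · exact hRV y hyR h

/-- The three properties of a closed convex set. -/
structure Ok (Q : Set X) : Prop where
  ord : IsClopen Q → Q = ∅ ∨ Ord Q
  least : ∀ x, IsLeast Q x → IsOpen (Q \ {x}) → OrdEnd Q x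
  greatest : ∀ x, IsGreatest Q x → IsOpen (Q \ {x}) → OrdEnd Q x

/-- All closed convex subsets are ok. -/
def Good (N : Set X) : Prop := ∀ Q, Q ⊆ N → IsClosed Q → Q.OrdConnected → Ok Q

omit [LinearOrder X] in
lemma sep_of_clopen {A B C : Set X} (hC : IsClopen C) (hA : A ⊆ C) (hB : B ⊆ Cᶜ) : Sep A B := by
  constructor
  · intro x hx
    filter_upwards [hC.isOpen.mem_nhds (hA hx)] with y hy hy'
    exact hB hy' hy
  · intro x hx
    filter_upwards [hC.compl.isOpen.mem_nhds (hB hx)] with y hy hy'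
    exact hy (hA hy')

lemma Ok.split [T1Space X] (hX : Scat X) {Q C : Set X} (hQ : IsClosed Q) (hC : IsClopen C)
    (hCl : IsLowerSet C) (h1 : Ok (Q ∩ C)) (h2 : Ok (Q \ C)) : Ok Q := by
  have hS : Sep (Q ∩ C) (Q \ C) := sep_of_clopen hC inter_subset_right (fun _ h => h.2)
  have hU : Q ∩ C ∪ Q \ C = Q := inter_union_diff Q C
  have hU' : Q \ C ∪ Q ∩ C = Q := by rw [union_comm]; exact hU
  refine ⟨?_, ?_, ?_⟩
  · intro hQo
    have := Ord.sum hX (h1.ord (hQo.inter hC)) (h2.ord (hQo.diff hC)) hS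
    rwa [hU] at this
  · intro x hx hxo
    by_cases hxC : x ∈ C
    · have e1 : (Q ∩ C) \ {x} = (Q \ {x}) ∩ C := by
        ext y; simp only [mem_diff, mem_inter_iff, mem_singleton_iff]; tauto
      have e2 : Q \ C = (Q \ {x}) \ C := by
        ext y
        simp only [mem_diff, mem_singleton_iff]
        constructor
        · rintro ⟨h1, h2⟩
          exact ⟨⟨h1, fun h => h2 (h ▸ hxC)⟩, h2⟩
        · rintro ⟨⟨h1, _⟩, h2⟩
          exact ⟨h1, h2⟩
      have k1 : OrdEnd (Q ∩ C) x := h1.least x ⟨⟨hx.1, hxC⟩, fun y hy => hx.2 hy.1⟩ (by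
        rw [e1]; exact hxo.inter hC.isOpen)
      have k2 : Q \ C = ∅ ∨ Ord (Q \ C) := h2.ord ⟨hQ.sdiff hC.isOpen, by
        rw [e2]; exact hxo.sdiff hC.isClosed⟩
      have := k1.sum hX k2 hS
      rwa [hU] at this
    · have e : Q \ C = Q := by
        ext y
        constructor
        · exact fun h => h.1
        · intro hy
          exact ⟨hy, fun hyC => hxC (hCl (hx.2 hy) hyC)⟩
      rw [← e]
      rw [← e] at hx hxo
      exact h2.least x hx hxo
  · intro x hx hxo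
    by_cases hxC : x ∈ C
    · have e : Q ∩ C = Q := by
        ext y
        constructor
        · exact fun h => h.1
        · intro hy
          exact ⟨hy, hCl (hx.2 hy) hxC⟩
      rw [← e]
      rw [← e] at hx hxo
      exact h1.greatest x hx hxo
    · have e1 : (Q \ C) \ {x} = (Q \ {x}) \ C := by
        ext y; simp only [mem_diff, mem_singleton_iff]; tauto
      have e2 : Q ∩ C = (Q \ {x}) ∩ C := by
        ext y
        simp only [mem_diff, mem_singleton_iff, mem_inter_iff]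
        constructor
        · rintro ⟨h1, h2⟩
          exact ⟨⟨h1, fun h => hxC (h ▸ h2)⟩, h2⟩
        · rintro ⟨⟨h1, _⟩, h2⟩
          exact ⟨h1, h2⟩
      have k1 : OrdEnd (Q \ C) x := h2.greatest x ⟨⟨hx.1, hxC⟩, fun y hy => hx.2 hy.1⟩ (by
        rw [e1]; exact hxo.sdiff hC.isClosed)
      have k2 : Q ∩ C = ∅ ∨ Ord (Q ∩ C) := h1.ord ⟨hQ.inter hC.isClosed, by
        rw [e2]; exact hxo.inter hC.isOpen⟩
      have := k1.sum hX k2 hS.symm
      rwa [hU'] at this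

/-- The part strictly below a clopen convex set. -/
lemma below_clopen (hGO : GO X) {N : Set X} (hN : IsClopen N) (hNc : N.OrdConnected) {n : X}
    (hn : n ∈ N) : IsClopen (Iio n \ N) ∧ IsLowerSet (Iio n \ N) := by
  constructor
  · constructor
    · have : Iio n \ N = Iic n \ N := by
        ext y
        simp only [mem_diff, mem_Iio, mem_Iic]
        constructor
        · rintro ⟨h1, h2⟩
          exact ⟨h1.le, h2⟩
        · rintro ⟨h1, h2⟩
          exact ⟨lt_of_le_of_ne h1 (fun h => h2 (h ▸ hn)), h2⟩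
      rw [this]
      exact (hGO.iic n).sdiff hN.isOpen
    · exact (hGO.iio n).sdiff hN.isClosed
  · rintro a b hba ⟨h1, h2⟩
    exact ⟨lt_of_le_of_lt hba h1, fun hb => h2 (hNc.out hb hn ⟨hba, le_of_lt h1⟩)⟩

lemma above_clopen (hGO : GO X) {N : Set X} (hN : IsClopen N) (hNc : N.OrdConnected) {n : X}
    (hn : n ∈ N) : IsClopen (Ioi n \ N) ∧ IsUpperSet (Ioi n \ N) := by
  constructor
  · constructor
    · have : Ioi n \ N = Ici n \ N := by
        ext y
        simp only [mem_diff, mem_Ioi, mem_Ici]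
        constructor
        · rintro ⟨h1, h2⟩
          exact ⟨h1.le, h2⟩
        · rintro ⟨h1, h2⟩
          exact ⟨lt_of_le_of_ne h1 (fun h => h2 (h ▸ hn)), h2⟩
      rw [this]
      exact (hGO.ici n).sdiff hN.isOpen
    · exact (hGO.ioi n).sdiff hN.isClosed
  · rintro a b hba ⟨h1, h2⟩
    exact ⟨lt_of_lt_of_le h1 hba, fun hb => h2 (hNc.out hn hb ⟨le_of_lt h1, hba⟩)⟩

/-- Splitting along a clopen convex set. -/
lemma Ok.split3 [T1Space X] (hX : Scat X) (hGO : GO X) {Q N : Set X} (hQ : IsClosed Q)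
    (hN : IsClopen N) (hNc : N.OrdConnected) {n : X} (hn : n ∈ N)
    (h1 : Ok (Q ∩ (Iio n \ N))) (h2 : Ok (Q ∩ N)) (h3 : Ok (Q ∩ (Ioi n \ N))) : Ok Q := by
  obtain ⟨hb, hbl⟩ := below_clopen hGO hN hNc hn
  obtain ⟨ha, hau⟩ := above_clopen hGO hN hNc hn
  refine Ok.split hX hQ hb hbl h1 ?_
  refine Ok.split hX (hQ.sdiff hb.isOpen) ha.compl hau.compl ?_ ?_
  · have : (Q \ (Iio n \ N)) ∩ (Ioi n \ N)ᶜ = Q ∩ N := by
      ext y
      simp only [mem_inter_iff, mem_diff, mem_Iio, mem_compl_iff, mem_Ioi]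
      constructor
      · rintro ⟨⟨h1, h2⟩, h3⟩
        refine ⟨h1, ?_⟩
        by_contra h4
        rcases lt_trichotomy y n with h5 | h5 | h5
        · exact h2 ⟨h5, h4⟩
        · exact h4 (h5 ▸ hn)
        · exact h3 ⟨h5, h4⟩
      · rintro ⟨h1, h2⟩
        exact ⟨⟨h1, fun h => h.2 h2⟩, fun h => h.2 h2⟩
    rw [this]
    exact h2
  · have : (Q \ (Iio n \ N)) \ (Ioi n \ N)ᶜ = Q ∩ (Ioi n \ N) := by
      ext y
      simp only [mem_inter_iff, mem_diff, mem_Iio, mem_compl_iff, mem_Ioi, not_not]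
      constructor
      · rintro ⟨⟨h1, h2⟩, h3⟩
        exact ⟨h1, h3⟩
      · rintro ⟨h1, h2⟩
        exact ⟨⟨h1, fun h => lt_asymm h.1 h2.1⟩, h2⟩
    rw [this]
    exact h3

lemma Good.union [T1Space X] (hX : Scat X) (hGO : GO X) {N M : Set X} (hN : IsClopen N)
    (hNc : N.OrdConnected) {n : X} (hn : n ∈ N) (h1 : Good N) (h2 : Good M) : Good (N ∪ M) := by
  intro Q hQ hQcl hQc
  obtain ⟨hb, hbl⟩ := below_clopen hGO hN hNc hn
  obtain ⟨ha, hau⟩ := above_clopen hGO hN hNc hn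
  refine Ok.split3 hX hGO hQcl hN hNc hn ?_ ?_ ?_
  · exact h2 _ (fun y hy => (hQ hy.1).resolve_left hy.2.2) (hQcl.inter hb.isClosed)
      (hQc.inter hbl.ordConnected)
  · exact h1 _ inter_subset_right (hQcl.inter hN.isClosed) (hQc.inter hNc)
  · exact h2 _ (fun y hy => (hQ hy.1).resolve_left hy.2.2) (hQcl.inter ha.isClosed)
      (hQc.inter hau.ordConnected)

lemma Good.mono {N M : Set X} (h : Good N) (hMN : M ⊆ N) : Good M :=
  fun Q hQ => h Q (hQ.trans hMN)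

/-- The hypotheses of the chain lemma. -/
lemma chain_hyp (hX : Scat X) (hGO : GO X) {Z : Set X} (hZo : IsOpen Z) (hZc : Z.OrdConnected)
    (hZcl : ∀ z ∈ Z, IsClosed (Z ∩ Iic z)) (hmax : ∀ z ∈ Z, ∃ w ∈ Z, z < w)
    (hG : ∀ w ∈ Z, ∃ N, Good N ∧ Z ∩ Iic w ⊆ N) :
    (∀ z ∈ Z, ∃ C, BI Z C ∧ z ∈ C) ∧
    (∀ C C', IsClopen C → C ⊆ Z → (∀ y ∈ C, ∀ y' ∈ Z, y' ≤ y → y' ∈ C) → BI Z C' →
      C' \ C = ∅ ∨ Ord (C' \ C)) ∧
    (∀ C', BI Z C' → ∀ x ∈ C', OrdEnd (C' ∩ Ici x) x) := by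
  have hsub : ∀ C', BI Z C' → ∃ N, Good N ∧ C' ⊆ N := by
    intro C' hC'
    obtain ⟨w, hw, hwC'⟩ := hC'.bdd
    obtain ⟨N, hN, hwN⟩ := hG w hw
    refine ⟨N, hN, fun y hy => hwN ⟨hC'.sub hy, ?_⟩⟩
    by_contra h
    exact hwC' (hC'.ini y hy w hw (not_le.1 h).le)
  have hconv : ∀ C', BI Z C' → C'.OrdConnected := by
    intro C' hC'
    refine ⟨fun a ha b hb t ht => ?_⟩
    exact hC'.ini b hb t (hZc.out (hC'.sub ha) (hC'.sub hb) ht) ht.2
  refine ⟨?_, ?_, ?_⟩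
  · intro z hz
    obtain ⟨w, hw, hzw⟩ := hmax z hz
    obtain ⟨C, hC, hCl, hzC, hwC⟩ := cut hX hGO hzw
    refine ⟨Z ∩ C, ⟨inter_subset_left, ⟨?_, hZo.inter hC.isOpen⟩, ?_, w, hw, fun h => hwC h.2⟩,
      hz, hzC⟩
    · have : Z ∩ C = (Z ∩ Iic w) ∩ C := by
        ext y
        simp only [mem_inter_iff, mem_Iic]
        constructor
        · rintro ⟨h1, h2⟩
          refine ⟨⟨h1, ?_⟩, h2⟩
          by_contra h3
          push Not at h3
          exact hwC (hCl h3.le h2)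
        · rintro ⟨⟨h1, _⟩, h2⟩
          exact ⟨h1, h2⟩
      rw [this]
      exact (hZcl w hw).inter hC.isClosed
    · rintro y ⟨hy1, hy2⟩ y' hy' hle
      exact ⟨hy', hCl hle hy2⟩
  · intro C C' hC hCZ hCi hC'
    obtain ⟨N, hN, hC'N⟩ := hsub C' hC'
    have hcl := hC'.clopen.diff hC
    refine (hN (C' \ C) (diff_subset.trans hC'N) hcl.isClosed ?_).ord hcl
    refine ⟨fun a ha b hb t ht => ?_⟩
    have htC' := (hconv C' hC').out ha.1 hb.1 ht
    exact ⟨htC', fun htC => ha.2 (hCi t htC a (hC'.sub ha.1) ht.1)⟩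
  · intro C' hC' x hx
    obtain ⟨N, hN, hC'N⟩ := hsub C' hC'
    refine (hN (C' ∩ Ici x) (inter_subset_left.trans hC'N) (hC'.clopen.isClosed.inter (hGO.ici x))
      ((hconv C' hC').inter ordConnected_Ici)).least x ⟨⟨hx, self_mem_Ici⟩, fun y hy => hy.2⟩ ?_
    have : (C' ∩ Ici x) \ {x} = C' ∩ Ioi x := by
      ext y
      simp only [mem_diff, mem_inter_iff, mem_Ici, mem_singleton_iff, mem_Ioi]
      constructor
      · rintro ⟨⟨h1, h2⟩, h3⟩
        exact ⟨h1, lt_of_le_of_ne h2 (Ne.symm h3)⟩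
      · rintro ⟨h1, h2⟩
        exact ⟨⟨h1, h2.le⟩, h2.ne'⟩
    rw [this]
    exact hC'.clopen.isOpen.inter (hGO.ioi x)

/-- A clopen convex set all of whose initial segments are inside good sets. -/
theorem right_chain [T1Space X] (hX : Scat X) (hGO : GO X) {Z : Set X} (hZ : IsClopen Z)
    (hZc : Z.OrdConnected) (hG : ∀ w ∈ Z, ∃ N, Good N ∧ Z ∩ Iic w ⊆ N) : Z = ∅ ∨ Ord Z := by
  by_cases h : ∀ z ∈ Z, ∃ w ∈ Z, z < w
  · obtain ⟨H0, H1, H2⟩ := chain_hyp hX hGO hZ.isOpen hZc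
      (fun z _ => hZ.isClosed.inter (hGO.iic z)) h hG
    exact Or.inr (ord_of_chain hX hGO (fun z _ => hZ.isClosed.inter (hGO.iic z)) H0 H1 H2)
  · push Not at h
    obtain ⟨z, hz, hz'⟩ := h
    obtain ⟨N, hN, hZN⟩ := hG z hz
    exact (hN Z (fun y hy => hZN ⟨hy, hz' y hy⟩) hZ.isClosed hZc).ord hZ

theorem limit_chain [T1Space X] (hX : Scat X) (hGO : GO X) {Z : Set X} {p : X} (hZo : IsOpen Z)
    (hZc : Z.OrdConnected) (hZp : ∀ z ∈ Z, z < p) (hlim : ∀ U ∈ 𝓝 p, ∃ y ∈ Z, y ∈ U)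
    (hZcl : ∀ z ∈ Z, IsClosed (Z ∩ Iic z))
    (hG : ∀ w ∈ Z, ∃ N, Good N ∧ Z ∩ Iic w ⊆ N) : OrdEnd (Z ∪ {p}) p := by
  have h : ∀ z ∈ Z, ∃ w ∈ Z, z < w := by
    intro z hz
    obtain ⟨y, hy, hy'⟩ := hlim (Ioi z) ((hGO.ioi z).mem_nhds (hZp z hz))
    exact ⟨y, hy, hy'⟩
  obtain ⟨H0, H1, H2⟩ := chain_hyp hX hGO hZo hZc hZcl h hG
  exact ordEnd_of_chain hX hGO hZp hlim hZcl H0 H1 H2

/-! Duality. -/

lemma GO.dual (hGO : GO X) : GO Xᵒᵈ where
  iio := fun a => hGO.ioi (OrderDual.ofDual a)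
  ioi := fun a => hGO.iio (OrderDual.ofDual a)
  conv := by
    intro x U hU
    obtain ⟨V, h1, h2, h3, h4⟩ := hGO.conv (OrderDual.ofDual x) U hU
    refine ⟨V, h1, ⟨fun a ha b hb t ht => ?_⟩, h3, h4⟩
    exact h2.out hb ha ⟨ht.2, ht.1⟩

omit [TopologicalSpace X] in
lemma ordConnected_dual {Q : Set X} (h : @Set.OrdConnected Xᵒᵈ _ Q) : Q.OrdConnected :=
  ⟨fun a ha b hb t ht => @Set.OrdConnected.out Xᵒᵈ _ Q h b hb a ha t ⟨ht.2, ht.1⟩⟩

omit [TopologicalSpace X] in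
lemma ordConnected_dual' {Q : Set X} (h : Q.OrdConnected) : @Set.OrdConnected Xᵒᵈ _ Q :=
  ⟨fun a ha b hb t ht => @Set.OrdConnected.out X _ Q h b hb a ha t ⟨ht.2, ht.1⟩⟩

lemma Good.dual {N : Set X} (h : Good N) : @Good Xᵒᵈ _ _ N := by
  intro Q hQN hQcl hQc
  have := h Q hQN hQcl (ordConnected_dual hQc)
  exact ⟨this.ord, fun x hx => this.greatest x ⟨hx.1, fun y hy => hx.2 hy⟩,
    fun x hx => this.least x ⟨hx.1, fun y hy => hx.2 hy⟩⟩

theorem left_chain [T1Space X] (hX : Scat X) (hGO : GO X) {Z : Set X} (hZ : IsClopen Z)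
    (hZc : Z.OrdConnected) (hG : ∀ w ∈ Z, ∃ N, Good N ∧ Z ∩ Ici w ⊆ N) : Z = ∅ ∨ Ord Z := by
  haveI : T1Space Xᵒᵈ := ‹T1Space X›
  refine right_chain (X := Xᵒᵈ) hX hGO.dual (Z := Z) hZ (ordConnected_dual' hZc) ?_
  intro w hw
  obtain ⟨N, hN, hw'⟩ := hG w hw
  exact ⟨N, hN.dual, hw'⟩

theorem limit_chain_left [T1Space X] (hX : Scat X) (hGO : GO X) {Z : Set X} {p : X}
    (hZo : IsOpen Z) (hZc : Z.OrdConnected) (hZp : ∀ z ∈ Z, p < z)
    (hlim : ∀ U ∈ 𝓝 p, ∃ y ∈ Z, y ∈ U) (hZcl : ∀ z ∈ Z, IsClosed (Z ∩ Ici z))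
    (hG : ∀ w ∈ Z, ∃ N, Good N ∧ Z ∩ Ici w ⊆ N) : OrdEnd (Z ∪ {p}) p := by
  haveI : T1Space Xᵒᵈ := ‹T1Space X›
  refine limit_chain (X := Xᵒᵈ) hX hGO.dual (Z := Z) (p := p) hZo (ordConnected_dual' hZc) hZp
    hlim hZcl ?_
  intro w hw
  obtain ⟨N, hN, hw'⟩ := hG w hw
  exact ⟨N, hN.dual, hw'⟩

end Pool.Agent.D0H84.Galvin
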