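import Pool.Agent.D0H84.Galvin.F

/-! The main theorem. -/

set_option autoImplicit false

open Set Filter Topology

namespace Pool.Agent.D0H84.Galvin

section pglue

variable {X : Type*} [TopologicalSpace X]

/-- Gluing two orders at a common end point. -/
def glr (A B : Set X) (p : X) (r s : X → X → Prop) (x y : X) : Prop :=
  (x ∈ A ∧ y ∈ A ∧ r y x) ∨ (x ∈ A ∧ x ≠ p ∧ y ∈ B ∧ y ≠ p) ∨ (x ∈ B ∧ y ∈ B ∧ s x y)

omit [TopologicalSpace X] in
lemma glr_symm (A B : Set X) (p : X) (r s : X → X → Prop) (x y : X) :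
    glr A B p r s x y ↔ glr B A p s r y x := by
  unfold glr
  tauto

structure PG (A B : Set X) (p : X) (r s : X → X → Prop) : Prop where
  ra : LO A r
  sb : LO B s
  pa : p ∈ A
  pb : p ∈ B
  ma : ∀ y ∈ A, ¬ r y p
  mb : ∀ y ∈ B, ¬ s y p
  int : ∀ y ∈ A, y ∈ B → y = p
  sa : ∀ x ∈ A, x ≠ p → ∀ᶠ y in 𝓝 x, y ∉ B
  sb' : ∀ x ∈ B, x ≠ p → ∀ᶠ y in 𝓝 x, y ∉ A

lemma PG.symm {A B : Set X} {p : X} {r s : X → X → Prop} (h : PG A B p r s) : PG B A p s r :=
  ⟨h.sb, h.ra, h.pb, h.pa, h.mb, h.ma, fun y h1 h2 => h.int y h2 h1, h.sb', h.sa⟩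

section

variable {A B : Set X} {p : X} {r s : X → X → Prop} (h : PG A B p r s)
include h

lemma PG.ra' {x : X} (hx : x ∈ A) (hne : x ≠ p) : r p x :=
  (h.ra.tot x hx p h.pa hne).resolve_left (h.ma x hx)

lemma PG.sb'' {x : X} (hx : x ∈ B) (hne : x ≠ p) : s p x :=
  (h.sb.tot x hx p h.pb hne).resolve_left (h.mb x hx)

/-- From a point of `A` other than `p`, being above is inside `A`. -/
lemma PG.below {x y : X} (hx : x ∈ A) (hyx : glr A B p r s y x) : y ∈ A ∧ r x y := by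
  rcases hyx with ⟨h1, _, h3⟩ | ⟨_, _, h3, h4⟩ | ⟨h1, h2, h3⟩
  · exact ⟨h1, h3⟩
  · exact absurd (h.int x hx h3) h4
  · have := h.int x hx h2
    subst this
    exact absurd h3 (h.mb y h1)

lemma PG.irr (x : X) (hx : x ∈ A ∪ B) : ¬ glr A B p r s x x := by
  rintro (⟨h1, _, h3⟩ | ⟨h1, h2, h3, _⟩ | ⟨h1, _, h3⟩)
  · exact h.ra.irr x h1 h3
  · exact h2 (h.int x h1 h3)
  · exact h.sb.irr x h1 h3

lemma PG.trans (x y z : X) (h1 : glr A B p r s x y) (h2 : glr A B p r s y z) :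
    glr A B p r s x z := by
  by_cases hz : z ∈ A
  · obtain ⟨hy, hzy⟩ := h.below hz h2
    obtain ⟨hx, hyx⟩ := h.below hy h1
    exact Or.inl ⟨hx, hz, h.ra.trans z hz y hy x hx hzy hyx⟩
  · by_cases hx : x ∈ B
    · obtain ⟨hy, hxy⟩ := h.symm.below hx ((glr_symm _ _ _ _ _ _ _).1 h1)
      obtain ⟨hz, hyz⟩ := h.symm.below hy ((glr_symm _ _ _ _ _ _ _).1 h2)
      exact Or.inr (Or.inr ⟨hx, hz, h.sb.trans x hx y hy z hz hxy hyz⟩)
    · have hx' : x ∈ A := by
        rcases h1 with ⟨h1, _, _⟩ | ⟨h1, _, _⟩ | ⟨h1, _, _⟩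
        · exact h1
        · exact h1
        · exact absurd h1 hx
      have hz' : z ∈ B := by
        rcases h2 with ⟨_, h1, _⟩ | ⟨_, _, h1, _⟩ | ⟨_, h1, _⟩
        · exact absurd h1 hz
        · exact h1
        · exact h1
      exact Or.inr (Or.inl ⟨hx', fun hE => hx (hE ▸ h.pb), hz', fun hE => hz (hE ▸ h.pa)⟩)

lemma PG.tot (x y : X) (hx : x ∈ A ∪ B) (hy : y ∈ A ∪ B) (hne : x ≠ y) :
    glr A B p r s x y ∨ glr A B p r s y x := by
  have key : ∀ a ∈ A, ∀ b ∈ B, a ≠ b → glr A B p r s a b := by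
    intro a ha b hb hab
    by_cases h1 : a = p
    · subst h1
      exact Or.inr (Or.inr ⟨h.pb, hb, h.sb'' hb hab.symm⟩)
    · by_cases h2 : b = p
      · subst h2
        exact Or.inl ⟨ha, h.pa, h.ra' ha hab⟩
      · exact Or.inr (Or.inl ⟨ha, h1, hb, h2⟩)
  rcases hx with hx | hx <;> rcases hy with hy | hy
  · rcases h.ra.tot x hx y hy hne with h1 | h1
    · exact Or.inr (Or.inl ⟨hy, hx, h1⟩)
    · exact Or.inl (Or.inl ⟨hx, hy, h1⟩)
  · exact Or.inl (key x hx y hy hne)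
  · exact Or.inr (key y hy x hx hne.symm)
  · rcases h.sb.tot x hx y hy hne with h1 | h1
    · exact Or.inl (Or.inr (Or.inr ⟨hx, hy, h1⟩))
    · exact Or.inr (Or.inr (Or.inr ⟨hy, hx, h1⟩))

lemma PG.lo (x a : X) (h1 : glr A B p r s x a) :
    ∀ᶠ y in 𝓝 x, y ∈ A ∪ B → glr A B p r s y a := by
  rcases h1 with ⟨a1, a2, a3⟩ | ⟨a1, a2, a3, a4⟩ | ⟨a1, a2, a3⟩
  · have hxp : x ≠ p := by
      rintro rfl
      exact h.ma a a2 a3
    filter_upwards [h.ra.hi x a1 a a2 a3, h.sa x a1 hxp] with y h2 h3 h4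
    have hyA : y ∈ A := h4.resolve_right h3
    exact Or.inl ⟨hyA, a2, h2 hyA⟩
  · filter_upwards [h.sa x a1 a2] with y h3 h4
    have hyA : y ∈ A := h4.resolve_right h3
    exact Or.inr (Or.inl ⟨hyA, fun hE => h3 (hE ▸ h.pb), a3, a4⟩)
  · by_cases hxp : x = p
    · subst hxp
      filter_upwards [h.sb.lo x a1 a a2 a3] with y h2 h3
      by_cases hyB : y ∈ B
      · exact Or.inr (Or.inr ⟨hyB, a2, h2 hyB⟩)
      · refine Or.inr (Or.inl ⟨h3.resolve_right hyB, fun hE => hyB (hE ▸ h.pb), a2, ?_⟩)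
        rintro rfl
        exact h.sb.irr a a2 a3
    · filter_upwards [h.sb.lo x a1 a a2 a3, h.sb' x a1 hxp] with y h2 h3 h4
      have hyB : y ∈ B := h4.resolve_left h3
      exact Or.inr (Or.inr ⟨hyB, a2, h2 hyB⟩)

lemma PG.left (x : X) (hx : x ∈ A ∪ B) (U : Set X) (hU : U ∈ 𝓝 x)
    (he : ∃ y ∈ A ∪ B, glr A B p r s y x) :
    ∃ a ∈ A ∪ B, glr A B p r s a x ∧
      ∀ y ∈ A ∪ B, glr A B p r s a y → glr A B p r s y x → y ∈ U := by
  by_cases hxA : x ∈ A
  · obtain ⟨y, _, hyx⟩ := he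
    obtain ⟨hyA, hxy⟩ := h.below hxA hyx
    obtain ⟨a, ha, h1, h2⟩ := h.ra.right x hxA U hU ⟨y, hyA, hxy⟩
    refine ⟨a, Or.inl ha, Or.inl ⟨ha, hxA, h1⟩, fun z _ h3 h4 => ?_⟩
    obtain ⟨hzA, hxz⟩ := h.below hxA h4
    exact h2 z hzA hxz (h.below hzA h3).2
  · have hxB : x ∈ B := hx.resolve_left hxA
    have hxp : x ≠ p := fun hE => hxA (hE ▸ h.pa)
    obtain ⟨a, ha, h1, h2⟩ := h.sb.left x hxB U hU ⟨p, h.pb, h.sb'' hxB hxp⟩
    refine ⟨a, Or.inr ha, Or.inr (Or.inr ⟨ha, hxB, h1⟩), fun z _ h3 h4 => ?_⟩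
    obtain ⟨hzB, haz⟩ := h.symm.below ha ((glr_symm _ _ _ _ _ _ _).1 h3)
    exact h2 z hzB haz (h.symm.below hzB ((glr_symm _ _ _ _ _ _ _).1 h4)).2

theorem PG.ord : LO (A ∪ B) (glr A B p r s) where
  irr := h.irr
  trans := fun x _ y _ z _ h1 h2 => h.trans x y z h1 h2
  tot := fun x hx y hy hne => h.tot x y hx hy hne
  lo := fun x _ a _ h1 => h.lo x a h1
  hi := fun x _ a _ h1 => by
    have := h.symm.lo x a ((glr_symm _ _ _ _ _ _ _).1 h1)
    filter_upwards [this] with y hy hy'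
    exact (glr_symm _ _ _ _ _ _ _).2 (hy hy'.symm)
  left := h.left
  right := fun x hx U hU he => by
    obtain ⟨y, hy, hxy⟩ := he
    obtain ⟨a, ha, h1, h2⟩ := h.symm.left x hx.symm U hU
      ⟨y, hy.symm, (glr_symm _ _ _ _ _ _ _).1 hxy⟩
    exact ⟨a, ha.symm, (glr_symm _ _ _ _ _ _ _).2 h1, fun z hz h3 h4 =>
      h2 z hz.symm ((glr_symm _ _ _ _ _ _ _).1 h4) ((glr_symm _ _ _ _ _ _ _).1 h3)⟩

end

end pglue

variable {X : Type*} [TopologicalSpace X] [LinearOrder X]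

/-- Points with good neighbourhoods. -/
def NonBad (x : X) : Prop := ∃ N : Set X, IsClopen N ∧ N.OrdConnected ∧ x ∈ N ∧ Good N

/-- Two points in a common good set. -/
def Rel (x y : X) : Prop := ∃ N : Set X, IsClopen N ∧ N.OrdConnected ∧ x ∈ N ∧ y ∈ N ∧ Good N

lemma Rel.symm {x y : X} (h : Rel x y) : Rel y x := by
  obtain ⟨N, h1, h2, h3, h4, h5⟩ := h
  exact ⟨N, h1, h2, h4, h3, h5⟩

lemma Rel.trans [T1Space X] (hX : Scat X) (hGO : GO X) {x y z : X} (h : Rel x y)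
    (h' : Rel y z) : Rel x z := by
  obtain ⟨N, h1, h2, h3, h4, h5⟩ := h
  obtain ⟨M, g1, g2, g3, g4, g5⟩ := h'
  refine ⟨N ∪ M, h1.union g1, ?_, Or.inl h3, Or.inr g4, Good.union hX hGO h1 h2 h4 h5 g5⟩
  have key : ∀ {N M : Set X}, N.OrdConnected → M.OrdConnected → y ∈ N → y ∈ M →
      ∀ a ∈ N, ∀ b ∈ M, ∀ t ∈ Icc a b, t ∈ N ∪ M := by
    intro N M hN hM hyN hyM a ha b hb t ht
    rcases le_total t y with h | h
    · exact Or.inl (hN.out ha hyN ⟨ht.1, h⟩)
    · exact Or.inr (hM.out hyM hb ⟨h, ht.2⟩)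
  refine ⟨?_⟩
  rintro a (ha | ha) b (hb | hb) t ht
  · exact Or.inl (h2.out ha hb ht)
  · exact key h2 g2 h4 g3 a ha b hb t ht
  · exact (key g2 h2 g3 h4 a ha b hb t ht).symm
  · exact Or.inr (g2.out ha hb ht)

lemma clopen_piece (hGO : GO X) {E : Set X} (hE : IsClopen E) (hEc : E.OrdConnected) {x : X}
    (hx : x ∈ E) [T1Space X] (hX : Scat X) (hrel : ∀ y ∈ E, Rel x y) : Ord E := by
  obtain ⟨N, hN, hNc, hxN, _, hNg⟩ := hrel x hx
  obtain ⟨hb, hbl⟩ := below_clopen hGO hN hNc hxN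
  obtain ⟨ha, hau⟩ := above_clopen hGO hN hNc hxN
  have k1 : E ∩ (Iio x \ N) = ∅ ∨ Ord (E ∩ (Iio x \ N)) := by
    refine left_chain hX hGO (hE.inter hb) (hEc.inter hbl.ordConnected) ?_
    rintro w ⟨hw, hw'⟩
    obtain ⟨M, _, hMc, hxM, hwM, hMg⟩ := hrel w hw
    refine ⟨M, hMg, ?_⟩
    rintro y ⟨⟨_, hy⟩, hy'⟩
    exact hMc.out hwM hxM ⟨hy', le_of_lt hy.1⟩
  have k3 : E ∩ (Ioi x \ N) = ∅ ∨ Ord (E ∩ (Ioi x \ N)) := by
    refine right_chain hX hGO (hE.inter ha) (hEc.inter hau.ordConnected) ?_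
    rintro w ⟨hw, hw'⟩
    obtain ⟨M, _, hMc, hxM, hwM, hMg⟩ := hrel w hw
    refine ⟨M, hMg, ?_⟩
    rintro y ⟨⟨_, hy⟩, hy'⟩
    exact hMc.out hxM hwM ⟨le_of_lt hy.1, hy'⟩
  have k2 : E ∩ N = ∅ ∨ Ord (E ∩ N) :=
    (hNg (E ∩ N) inter_subset_right (hE.isClosed.inter hN.isClosed) (hEc.inter hNc)).ord
      (hE.inter hN)
  have s1 := Ord.sum hX k1 k2 (sep_of_clopen hb inter_subset_right
    (fun y hy h => h.2 hy.2))
  have s2 := Ord.sum hX s1 k3 (sep_of_clopen (C := (Ioi x \ N)ᶜ) ha.compl ?_ ?_)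
  · have e : E ∩ (Iio x \ N) ∪ E ∩ N ∪ E ∩ (Ioi x \ N) = E := by
      ext y
      simp only [mem_union, mem_inter_iff, mem_diff, mem_Iio, mem_Ioi]
      constructor
      · rintro ((h | h) | h)
        · exact h.1
        · exact h.1
        · exact h.1
      · intro hy
        by_cases hyN : y ∈ N
        · exact Or.inl (Or.inr ⟨hy, hyN⟩)
        · rcases lt_trichotomy y x with h | h | h
          · exact Or.inl (Or.inl ⟨hy, h, hyN⟩)
          · exact absurd (h ▸ hxN) hyN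
          · exact Or.inr ⟨hy, h, hyN⟩
    rw [e] at s2
    rcases s2 with h | h
    · rw [h] at hx
      exact absurd hx (notMem_empty x)
    · exact h
  · rintro y (hy | hy) h
    · exact lt_asymm hy.2.1 h.1
    · exact h.2 hy.2
  · intro y hy
    rw [compl_compl]
    exact hy.2

/-- Clopen convex sets of points which are not bad. -/
theorem ord_of_nonBad [T1Space X] (hX : Scat X) (hGO : GO X) {Q : Set X} (hQ : IsClopen Q)
    (hQc : Q.OrdConnected) (hB : ∀ x ∈ Q, NonBad x) : Q = ∅ ∨ Ord Q := by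
  have hrefl : ∀ x ∈ Q, Rel x x := by
    intro x hx
    obtain ⟨N, h1, h2, h3, h4⟩ := hB x hx
    exact ⟨N, h1, h2, h3, h3, h4⟩
  refine free_sum hX Q (fun x => {y | Rel x y}) ?_ ?_
  · intro x hx
    obtain ⟨N, h1, h2, h3, h4⟩ := hB x hx
    filter_upwards [h1.isOpen.mem_nhds h3] with y hy _
    have hxy : Rel x y := ⟨N, h1, h2, h3, hy, h4⟩
    ext z
    simp only [mem_ofPred_eq]
    exact ⟨fun h => hxy.trans hX hGO h, fun h => hxy.symm.trans hX hGO h⟩
  · intro A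
    rcases (Q ∩ (fun x => {y | Rel x y}) ⁻¹' {A}).eq_empty_or_nonempty with he | hne
    · exact Or.inl he
    right
    obtain ⟨x, hx, hxA⟩ := hne
    have hxA' : {y | Rel x y} = A := hxA
    subst hxA'
    have e : Q ∩ (fun x => {y | Rel x y}) ⁻¹' {{y | Rel x y}} = Q ∩ {y | Rel x y} := by
      ext y
      simp only [mem_inter_iff, mem_preimage, mem_singleton_iff, mem_ofPred_eq]
      constructor
      · rintro ⟨h1, h2⟩
        refine ⟨h1, ?_⟩
        have : y ∈ {z | Rel y z} := hrefl y h1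
        rw [h2] at this
        exact this
      · rintro ⟨h1, h2⟩
        refine ⟨h1, ?_⟩
        ext z
        simp only [mem_ofPred_eq]
        exact ⟨fun h => h2.trans hX hGO h, fun h => h2.symm.trans hX hGO h⟩
    rw [e]
    have hopen : IsOpen (Q ∩ {y | Rel x y}) := by
      rw [isOpen_iff_mem_nhds]
      rintro y ⟨hy, hxy⟩
      obtain ⟨N, h1, h2, h3, h4⟩ := hB y hy
      filter_upwards [hQ.isOpen.mem_nhds hy, h1.isOpen.mem_nhds h3] with z hz hz'
      exact ⟨hz, Rel.trans hX hGO hxy ⟨N, h1, h2, h3, hz', h4⟩⟩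
    have hclosed : IsClosed (Q ∩ {y | Rel x y}) := by
      rw [← isOpen_compl_iff, isOpen_iff_mem_nhds]
      intro y hy
      by_cases hyQ : y ∈ Q
      · obtain ⟨N, h1, h2, h3, h4⟩ := hB y hyQ
        filter_upwards [h1.isOpen.mem_nhds h3] with z hz hz'
        exact hy ⟨hyQ, Rel.trans hX hGO hz'.2 ⟨N, h1, h2, hz, h3, h4⟩⟩
      · filter_upwards [hQ.compl.isOpen.mem_nhds hyQ] with z hz hz'
        exact hz hz'.1
    refine clopen_piece hGO (x := x) ⟨hclosed, hopen⟩ ?_ ⟨hx, hrefl x hx⟩ hX (fun y hy => hy.2)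
    refine ⟨?_⟩
    rintro a ⟨ha, ha'⟩ b ⟨hb, hb'⟩ t ht
    refine ⟨hQc.out ha hb ht, ?_⟩
    obtain ⟨N, h1, h2, h3, h4, h5⟩ := Rel.trans hX hGO (Rel.symm ha') hb'
    exact Rel.trans hX hGO ha' ⟨N, h1, h2, h3, h2.out h3 h4 ht, h5⟩

/-- Closed convex sets of points which are not bad. -/
theorem ok_of_nonBad [T1Space X] (hX : Scat X) (hGO : GO X) {Q : Set X} (hQ : IsClosed Q)
    (hQc : Q.OrdConnected) (hB : ∀ x ∈ Q, NonBad x) : Ok Q := by
  refine ⟨fun h => ord_of_nonBad hX hGO h hQc hB, ?_, ?_⟩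
  · intro x hx hxo
    obtain ⟨N, h1, h2, h3, h4⟩ := hB x hx.1
    have k1 : OrdEnd (Q ∩ N) x := by
      refine (h4 (Q ∩ N) inter_subset_right (hQ.inter h1.isClosed) (hQc.inter h2)).least x
        ⟨⟨hx.1, h3⟩, fun y hy => hx.2 hy.1⟩ ?_
      have : (Q ∩ N) \ {x} = (Q \ {x}) ∩ N := by
        ext y; simp only [mem_diff, mem_inter_iff, mem_singleton_iff]; tauto
      rw [this]
      exact hxo.inter h1.isOpen
    have k2 : Q \ N = ∅ ∨ Ord (Q \ N) := by
      refine ord_of_nonBad hX hGO ⟨hQ.sdiff h1.isOpen, ?_⟩ ⟨?_⟩ (fun y hy => hB y hy.1)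
      · have : Q \ N = (Q \ {x}) \ N := by
          ext y
          simp only [mem_diff, mem_singleton_iff]
          constructor
          · rintro ⟨g1, g2⟩
            exact ⟨⟨g1, fun h => g2 (h ▸ h3)⟩, g2⟩
          · rintro ⟨⟨g1, _⟩, g2⟩
            exact ⟨g1, g2⟩
        rw [this]
        exact hxo.sdiff h1.isClosed
      · rintro a ha b hb t ht
        exact ⟨hQc.out ha.1 hb.1 ht, fun htN => ha.2 (h2.out h3 htN ⟨hx.2 ha.1, ht.1⟩)⟩
    have := k1.sum hX k2 (sep_of_clopen h1 inter_subset_right (fun y hy => hy.2))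
    rwa [inter_union_diff] at this
  · intro x hx hxo
    obtain ⟨N, h1, h2, h3, h4⟩ := hB x hx.1
    have k1 : OrdEnd (Q ∩ N) x := by
      refine (h4 (Q ∩ N) inter_subset_right (hQ.inter h1.isClosed) (hQc.inter h2)).greatest x
        ⟨⟨hx.1, h3⟩, fun y hy => hx.2 hy.1⟩ ?_
      have : (Q ∩ N) \ {x} = (Q \ {x}) ∩ N := by
        ext y; simp only [mem_diff, mem_inter_iff, mem_singleton_iff]; tauto
      rw [this]
      exact hxo.inter h1.isOpen
    have k2 : Q \ N = ∅ ∨ Ord (Q \ N) := by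
      refine ord_of_nonBad hX hGO ⟨hQ.sdiff h1.isOpen, ?_⟩ ⟨?_⟩ (fun y hy => hB y hy.1)
      · have : Q \ N = (Q \ {x}) \ N := by
          ext y
          simp only [mem_diff, mem_singleton_iff]
          constructor
          · rintro ⟨g1, g2⟩
            exact ⟨⟨g1, fun h => g2 (h ▸ h3)⟩, g2⟩
          · rintro ⟨⟨g1, _⟩, g2⟩
            exact ⟨g1, g2⟩
        rw [this]
        exact hxo.sdiff h1.isClosed
      · rintro a ha b hb t ht
        exact ⟨hQc.out ha.1 hb.1 ht, fun htN => hb.2 (h2.out htN h3 ⟨ht.2, hx.2 hb.1⟩)⟩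
    have := k1.sum hX k2 (sep_of_clopen h1 inter_subset_right (fun y hy => hy.2))
    rwa [inter_union_diff] at this

lemma LO_singleton (p : X) : LO {p} (fun _ _ => False) := by
  refine ⟨fun _ _ h => h, fun _ _ _ _ _ _ h _ => h, ?_, fun _ _ _ _ h => h.elim,
    fun _ _ _ _ h => h.elim, ?_, ?_⟩
  · intro x hx y hy hne
    exact absurd ((show x = p from hx).trans (show y = p from hy).symm) hne
  · rintro x hx U hU ⟨y, _, h⟩
    exact h.elim
  · rintro x hx U hU ⟨y, _, h⟩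
    exact h.elim

/-- The one-sided lemma at a bad point, left side. -/
theorem end_left [T1Space X] (hX : Scat X) (hGO : GO X) {Q : Set X} {p : X} (hQ : IsClosed Q)
    (hQc : Q.OrdConnected) (hB : ∀ x ∈ Q, x ≠ p → NonBad x) (hp : IsGreatest Q p)
    (hpo : IsOpen (Q \ {p})) : OrdEnd Q p := by
  have hlt : ∀ y ∈ Q \ {p}, y < p := fun y hy => lt_of_le_of_ne (hp.2 hy.1) hy.2
  have hconv : (Q \ {p}).OrdConnected := by
    refine ⟨?_⟩
    rintro a ha b hb t ht
    exact ⟨hQc.out ha.1 hb.1 ht, fun hE => absurd (lt_of_le_of_lt ht.2 (hlt b hb))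
      (by rw [show t = p from hE]; exact lt_irrefl p)⟩
  have hU : Q \ {p} ∪ {p} = Q := by
    rw [diff_union_self]
    exact union_eq_self_of_subset_right (singleton_subset_iff.2 hp.1)
  have hU' : {p} ∪ Q \ {p} = Q := by rw [union_comm]; exact hU
  by_cases hlim : ∀ U ∈ 𝓝 p, ∃ y ∈ Q \ {p}, y ∈ U
  · have := limit_chain hX hGO hpo hconv hlt hlim ?_ ?_
    · rwa [hU] at this
    · intro z hz
      have : (Q \ {p}) ∩ Iic z = Q ∩ Iic z := by
        ext y
        simp only [mem_diff, mem_inter_iff, mem_singleton_iff, mem_Iic]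
        constructor
        · rintro ⟨⟨h1, _⟩, h2⟩
          exact ⟨h1, h2⟩
        · rintro ⟨h1, h2⟩
          exact ⟨⟨h1, fun hE => absurd (lt_of_le_of_lt h2 (hlt z hz))
            (by rw [hE]; exact lt_irrefl p)⟩, h2⟩
      rw [this]
      exact hQ.inter (hGO.iic z)
    · intro w hw
      obtain ⟨C, hC, hCl, hwC, hpC⟩ := cut hX hGO (hlt w hw)
      refine ⟨Q ∩ C, ?_, ?_⟩
      · intro Q' hQ' hQ'cl hQ'c
        exact ok_of_nonBad hX hGO hQ'cl hQ'c (fun x hx => hB x (hQ' hx).1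
          (fun hE => hpC (hE ▸ (hQ' hx).2)))
      · rintro y ⟨hy1, hy2⟩
        exact ⟨hy1.1, hCl hy2 hwC⟩
  · push Not at hlim
    obtain ⟨U, hU1, hU2⟩ := hlim
    have hclopen : IsClopen (Q \ {p}) := by
      refine ⟨?_, hpo⟩
      rw [← isOpen_compl_iff, isOpen_iff_mem_nhds]
      intro y hy
      by_cases hyQ : y ∈ Q
      · have : y = p := by
          by_contra h
          exact hy ⟨hyQ, h⟩
        subst this
        filter_upwards [hU1] with z hz hz'
        exact hU2 z hz' hz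
      · filter_upwards [hQ.isOpen_compl.mem_nhds hyQ] with z hz hz'
        exact hz hz'.1
    have k2 := ord_of_nonBad hX hGO hclopen hconv (fun x hx => hB x hx.1 hx.2)
    have k1 : OrdEnd {p} p := ⟨_, LO_singleton p, rfl, fun _ _ h => h⟩
    have := k1.sum hX k2 (sep_of_clopen (C := (Q \ {p})ᶜ) hclopen.compl ?_ ?_)
    · rwa [hU'] at this
    · intro y hy h
      exact h.2 hy
    · rw [compl_compl]

/-- The one-sided lemma at a bad point, right side. -/
theorem end_right [T1Space X] (hX : Scat X) (hGO : GO X) {Q : Set X} {p : X} (hQ : IsClosed Q)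
    (hQc : Q.OrdConnected) (hB : ∀ x ∈ Q, x ≠ p → NonBad x) (hp : IsLeast Q p)
    (hpo : IsOpen (Q \ {p})) : OrdEnd Q p := by
  haveI : T1Space Xᵒᵈ := ‹T1Space X›
  refine end_left (X := Xᵒᵈ) hX hGO.dual (Q := Q) (p := p) hQ (ordConnected_dual' hQc) ?_
    ⟨hp.1, fun y hy => hp.2 hy⟩ hpo
  intro x hx hne
  obtain ⟨N, h1, h2, h3, h4⟩ := hB x hx hne
  exact ⟨N, h1, ordConnected_dual' h2, h3, h4.dual⟩

/-- Clopen convex sets with a single bad point. -/
theorem ord_bad [T1Space X] (hX : Scat X) (hGO : GO X) {Q : Set X} {p : X} (hQ : IsClopen Q)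
    (hQc : Q.OrdConnected) (hB : ∀ x ∈ Q, x ≠ p → NonBad x) (hp : p ∈ Q) : Ord Q := by
  have e1 : (Q ∩ Iic p) \ {p} = Q ∩ Iio p := by
    ext y
    simp only [mem_diff, mem_inter_iff, mem_singleton_iff, mem_Iic, mem_Iio]
    constructor
    · rintro ⟨⟨h1, h2⟩, h3⟩
      exact ⟨h1, lt_of_le_of_ne h2 h3⟩
    · rintro ⟨h1, h2⟩
      exact ⟨⟨h1, h2.le⟩, h2.ne⟩
  have e2 : (Q ∩ Ici p) \ {p} = Q ∩ Ioi p := by
    ext y
    simp only [mem_diff, mem_inter_iff, mem_singleton_iff, mem_Ici, mem_Ioi]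
    constructor
    · rintro ⟨⟨h1, h2⟩, h3⟩
      exact ⟨h1, lt_of_le_of_ne h2 (Ne.symm h3)⟩
    · rintro ⟨h1, h2⟩
      exact ⟨⟨h1, h2.le⟩, h2.ne'⟩
  obtain ⟨r, h1, h2, h3⟩ := end_left hX hGO (Q := Q ∩ Iic p) (p := p)
    (hQ.isClosed.inter (hGO.iic p)) (hQc.inter ordConnected_Iic) (fun x hx => hB x hx.1)
    ⟨⟨hp, self_mem_Iic⟩, fun y hy => hy.2⟩ (by rw [e1]; exact hQ.isOpen.inter (hGO.iio p))
  obtain ⟨s, g1, g2, g3⟩ := end_right hX hGO (Q := Q ∩ Ici p) (p := p)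
    (hQ.isClosed.inter (hGO.ici p)) (hQc.inter ordConnected_Ici) (fun x hx => hB x hx.1)
    ⟨⟨hp, self_mem_Ici⟩, fun y hy => hy.2⟩ (by rw [e2]; exact hQ.isOpen.inter (hGO.ioi p))
  have hPG : PG (Q ∩ Iic p) (Q ∩ Ici p) p r s := by
    refine ⟨h1, g1, h2, g2, h3, g3, fun y hy hy' => le_antisymm hy.2 hy'.2, ?_, ?_⟩
    · intro x hx hne
      filter_upwards [(hGO.iio p).mem_nhds (lt_of_le_of_ne hx.2 hne)] with y hy hy'
      exact absurd (show y < p from hy) (not_lt.2 hy'.2)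
    · intro x hx hne
      filter_upwards [(hGO.ioi p).mem_nhds (lt_of_le_of_ne hx.2 (Ne.symm hne))] with y hy hy'
      exact absurd (show p < y from hy) (not_lt.2 hy'.2)
  have := hPG.ord
  rw [← inter_union_distrib_left, Iic_union_Ici, inter_univ] at this
  exact ⟨_, this⟩

/-- There are no bad points. -/
theorem all_nonBad [T1Space X] (hX : Scat X) (hGO : GO X) (x : X) : NonBad x := by
  by_contra hx
  obtain ⟨p, hp, U, hU, hUp⟩ := hX {x | ¬ NonBad x} ⟨x, hx⟩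
  have hpU : p ∈ U := by
    have : p ∈ U ∩ {x | ¬ NonBad x} := by rw [hUp]; rfl
    exact this.1
  obtain ⟨N, hN, hNc, hpN, hNU⟩ := exists_nbhd hX hGO (hU.mem_nhds hpU)
  have hB : ∀ y ∈ N, y ≠ p → NonBad y := by
    intro y hy hne
    by_contra h
    have : y ∈ U ∩ {x | ¬ NonBad x} := ⟨hNU hy, h⟩
    rw [hUp] at this
    exact hne this
  apply hp
  refine ⟨N, hN, hNc, hpN, ?_⟩
  intro Q hQN hQ hQc
  by_cases hpQ : p ∈ Q
  · refine ⟨?_, ?_, ?_⟩
    · intro hQo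
      exact Or.inr (ord_bad hX hGO hQo hQc (fun y hy => hB y (hQN hy)) hpQ)
    · intro x hx hxo
      by_cases hxp : x = p
      · subst hxp
        exact end_right hX hGO hQ hQc (fun y hy => hB y (hQN hy)) hx hxo
      · obtain ⟨C, hC, hCl, hxC, hpC⟩ := cut hX hGO (lt_of_le_of_ne (hx.2 hpQ) hxp)
        have k1 : OrdEnd (Q ∩ C) x := by
          refine (ok_of_nonBad hX hGO (hQ.inter hC.isClosed) (hQc.inter hCl.ordConnected)
            (fun y hy => hB y (hQN hy.1) (fun hE => hpC (hE ▸ hy.2)))).least x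
            ⟨⟨hx.1, hxC⟩, fun y hy => hx.2 hy.1⟩ ?_
          have : (Q ∩ C) \ {x} = (Q \ {x}) ∩ C := by
            ext y; simp only [mem_diff, mem_inter_iff, mem_singleton_iff]; tauto
          rw [this]
          exact hxo.inter hC.isOpen
        have k2 : Ord (Q \ C) := by
          refine ord_bad hX hGO (p := p) ⟨hQ.sdiff hC.isOpen, ?_⟩
            (hQc.inter hCl.compl.ordConnected) (fun y hy => hB y (hQN hy.1)) ⟨hpQ, hpC⟩
          have : Q \ C = (Q \ {x}) \ C := by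
            ext y
            simp only [mem_diff, mem_singleton_iff]
            constructor
            · rintro ⟨g1, g2⟩
              exact ⟨⟨g1, fun h => g2 (h ▸ hxC)⟩, g2⟩
            · rintro ⟨⟨g1, _⟩, g2⟩
              exact ⟨g1, g2⟩
          rw [this]
          exact hxo.sdiff hC.isClosed
        have := k1.sum hX (Or.inr k2) (sep_of_clopen hC inter_subset_right (fun y hy => hy.2))
        rwa [inter_union_diff] at this
    · intro x hx hxo
      by_cases hxp : x = p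
      · subst hxp
        exact end_left hX hGO hQ hQc (fun y hy => hB y (hQN hy)) hx hxo
      · obtain ⟨C, hC, hCl, hpC, hxC⟩ := cut hX hGO
          (lt_of_le_of_ne (hx.2 hpQ) (Ne.symm hxp))
        have k1 : OrdEnd (Q \ C) x := by
          refine (ok_of_nonBad hX hGO (hQ.sdiff hC.isOpen) (hQc.inter hCl.compl.ordConnected)
            (fun y hy => hB y (hQN hy.1) (fun hE => hy.2 (hE ▸ hpC)))).greatest x
            ⟨⟨hx.1, hxC⟩, fun y hy => hx.2 hy.1⟩ ?_
          have : (Q \ C) \ {x} = (Q \ {x}) \ C := by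
            ext y; simp only [mem_diff, mem_singleton_iff]; tauto
          rw [this]
          exact hxo.sdiff hC.isClosed
        have k2 : Ord (Q ∩ C) := by
          refine ord_bad hX hGO (p := p) ⟨hQ.inter hC.isClosed, ?_⟩
            (hQc.inter hCl.ordConnected) (fun y hy => hB y (hQN hy.1)) ⟨hpQ, hpC⟩
          have : Q ∩ C = (Q \ {x}) ∩ C := by
            ext y
            simp only [mem_diff, mem_singleton_iff, mem_inter_iff]
            constructor
            · rintro ⟨g1, g2⟩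
              exact ⟨⟨g1, fun h => hxC (h ▸ g2)⟩, g2⟩
            · rintro ⟨⟨g1, _⟩, g2⟩
              exact ⟨g1, g2⟩
          rw [this]
          exact hxo.inter hC.isOpen
        have := k1.sum hX (Or.inr k2)
          (sep_of_clopen hC inter_subset_right (fun y hy => hy.2)).symm
        rwa [union_comm, inter_union_diff] at this
  · exact ok_of_nonBad hX hGO hQ hQc (fun y hy => hB y (hQN hy) (fun hE => hpQ (hE ▸ hy)))

/-- Every scattered generalized ordered space is orderable. -/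
theorem orderable (hX : Scat X) (hGO : GO X) : (univ : Set X) = ∅ ∨ Ord (univ : Set X) := by
  haveI := hGO.t1
  exact ord_of_nonBad hX hGO isClopen_univ ordConnected_univ (fun x _ => all_nonBad hX hGO x)

end Pool.Agent.D0H84.Galvin
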