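import Pool.Agent.D0H84.Galvin.G

/-! From relations to linear orders; subspaces of linearly ordered spaces. -/

set_option autoImplicit false

open Set Filter Topology

namespace Pool.Agent.D0H84.Galvin

variable {X : Type*} [TopologicalSpace X]

/-- From a relation to a linear order with its order topology. -/
theorem toOrder {r : X → X → Prop} (h : LO (univ : Set X) r) :
    ∃ o : LinearOrder X,
      @OrderTopology X _ (@PartialOrder.toPreorder X (@LinearOrder.toPartialOrder X o)) := by
  classical
  let o : LinearOrder X :=
    { le := fun x y => x = y ∨ r x y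
      lt := fun x y => r x y
      le_refl := fun x => Or.inl rfl
      le_trans := by
        rintro x y z (rfl | h1) (rfl | h2)
        · exact Or.inl rfl
        · exact Or.inr h2
        · exact Or.inr h1
        · exact Or.inr (h.trans x trivial y trivial z trivial h1 h2)
      le_antisymm := by
        rintro x y (rfl | h1) (h2 | h2)
        · rfl
        · rfl
        · exact h2.symm
        · exact absurd h2 (h.asymm trivial trivial h1)
      le_total := by
        intro x y
        by_cases hE : x = y
        · exact Or.inl (Or.inl hE)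
        · exact (h.tot x trivial y trivial hE).imp Or.inr Or.inr
      lt_iff_le_not_ge := by
        intro x y
        constructor
        · intro h1
          refine ⟨Or.inr h1, ?_⟩
          rintro (rfl | h2)
          · exact h.irr _ trivial h1
          · exact h.asymm trivial trivial h1 h2
        · rintro ⟨h1 | h1, h2⟩
          · exact absurd (Or.inl h1.symm) h2
          · exact h1
      toDecidableLE := fun _ _ => Classical.propDecidable _ }
  refine ⟨o, ?_⟩
  letI := o
  have hlt : ∀ x y : X, x < y ↔ r x y := fun x y => Iff.rfl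
  refine ⟨le_antisymm ?_ ?_⟩
  · refine le_generateFrom ?_
    rintro s ⟨a, rfl | rfl⟩
    · rw [isOpen_iff_mem_nhds]
      intro x hx
      filter_upwards [h.hi x trivial a trivial hx] with y hy using hy trivial
    · rw [isOpen_iff_mem_nhds]
      intro x hx
      filter_upwards [h.lo x trivial a trivial hx] with y hy using hy trivial
  · intro U hU
    rw [@isOpen_iff_forall_mem_open X (TopologicalSpace.generateFrom
      {s | ∃ a : X, s = Ioi a ∨ s = Iio a}) U]
    intro x hx
    have hU' : U ∈ 𝓝 x := hU.mem_nhds hx
    obtain ⟨L, hL, hxL, hLU⟩ : ∃ L : Set X,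
        IsOpen[TopologicalSpace.generateFrom {s | ∃ a : X, s = Ioi a ∨ s = Iio a}] L ∧ x ∈ L ∧
        ∀ y ∈ L, r y x → y ∈ U := by
      by_cases he : ∃ y, r y x
      · obtain ⟨y, hy⟩ := he
        obtain ⟨a, _, h1, h2⟩ := h.left x trivial U hU' ⟨y, trivial, hy⟩
        exact ⟨Ioi a, TopologicalSpace.isOpen_generateFrom_of_mem ⟨a, Or.inl rfl⟩, h1,
          fun y hy hyx => h2 y trivial hy hyx⟩
      · push Not at he
        exact ⟨univ, @isOpen_univ X (TopologicalSpace.generateFrom
          {s | ∃ a : X, s = Ioi a ∨ s = Iio a}), trivial, fun y _ hyx => absurd hyx (he y)⟩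
    obtain ⟨R, hR, hxR, hRU⟩ : ∃ L : Set X,
        IsOpen[TopologicalSpace.generateFrom {s | ∃ a : X, s = Ioi a ∨ s = Iio a}] L ∧ x ∈ L ∧
        ∀ y ∈ L, r x y → y ∈ U := by
      by_cases he : ∃ y, r x y
      · obtain ⟨y, hy⟩ := he
        obtain ⟨a, _, h1, h2⟩ := h.right x trivial U hU' ⟨y, trivial, hy⟩
        exact ⟨Iio a, TopologicalSpace.isOpen_generateFrom_of_mem ⟨a, Or.inr rfl⟩, h1,
          fun y hy hyx => h2 y trivial hyx hy⟩
      · push Not at he
        exact ⟨univ, @isOpen_univ X (TopologicalSpace.generateFrom
          {s | ∃ a : X, s = Ioi a ∨ s = Iio a}), trivial, fun y _ hyx => absurd hyx (he y)⟩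
    refine ⟨L ∩ R, ?_, @IsOpen.inter X (TopologicalSpace.generateFrom
      {s | ∃ a : X, s = Ioi a ∨ s = Iio a}) L R hL hR, hxL, hxR⟩
    rintro y ⟨hyL, hyR⟩
    by_cases hE : y = x
    · rw [hE]; exact hx
    · rcases h.tot y trivial x trivial hE with h1 | h1
      · exact hLU y hyL h1
      · exact hRU y hyR h1

/-- A subspace of a linearly ordered space is a generalized ordered space. -/
theorem GO_subtype [LinearOrder X] [OrderTopology X] (S : Set X) : GO S where
  iio := fun a => (isOpen_Iio (a := (a : X))).preimage continuous_subtype_val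
  ioi := fun a => (isOpen_Ioi (a := (a : X))).preimage continuous_subtype_val
  conv := by
    intro x U hU
    rw [nhds_subtype_eq_comap, mem_comap] at hU
    obtain ⟨U', hU', hU'U⟩ := hU
    obtain ⟨V, hVU, hV, hxV⟩ := mem_nhds_iff.1 hU'
    have hWo : IsOpen (ordConnectedComponent V (x : X)) := by
      rw [isOpen_iff_mem_nhds]
      intro y hy
      rw [ordConnectedComponent_eq (mem_ordConnectedComponent.1 hy)]
      exact ordConnectedComponent_mem_nhds.2 (hV.mem_nhds (ordConnectedComponent_subset hy))
    have hWc : (ordConnectedComponent V (x : X)).OrdConnected := inferInstance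
    refine ⟨Subtype.val ⁻¹' ordConnectedComponent V (x : X), hWo.preimage continuous_subtype_val,
      ⟨fun a ha b hb t ht => hWc.out ha hb ⟨ht.1, ht.2⟩⟩, self_mem_ordConnectedComponent.2 hxV, ?_⟩
    intro y hy
    exact hU'U (hVU (ordConnectedComponent_subset hy))

/-- A subspace of a scattered space is scattered. -/
theorem Scat_subtype (hX : Scat X) (S : Set X) : Scat S := by
  intro A hA
  obtain ⟨x, hx, U, hU, hUx⟩ := hX (Subtype.val '' A) (hA.image _)
  obtain ⟨y, hy, rfl⟩ := hx
  refine ⟨y, hy, Subtype.val ⁻¹' U, hU.preimage continuous_subtype_val, ?_⟩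
  ext z
  constructor
  · rintro ⟨h1, h2⟩
    have : (z : X) ∈ U ∩ Subtype.val '' A := ⟨h1, z, h2, rfl⟩
    rw [hUx] at this
    exact Subtype.ext this
  · intro hz
    have hz' : z = y := hz
    rw [hz']
    have : (y : X) ∈ U ∩ Subtype.val '' A := by rw [hUx]; rfl
    exact ⟨this.1, hy⟩

theorem main [LinearOrder X] [OrderTopology X] (hX : Scat X) (S : Set X) :
    ∃ o : LinearOrder S,
      @OrderTopology S _ (@PartialOrder.toPreorder S (@LinearOrder.toPartialOrder S o)) := by
  rcases orderable (Scat_subtype hX S) (GO_subtype S) with h | ⟨r, hr⟩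
  · have hemp : LO (univ : Set S) (fun _ _ => False) := by
      have hno : ∀ x : S, False := fun x => by
        have : x ∈ (univ : Set S) := trivial
        rw [h] at this
        exact this
      exact ⟨fun x => (hno x).elim, fun x => (hno x).elim, fun x => (hno x).elim,
        fun x => (hno x).elim, fun x => (hno x).elim, fun x => (hno x).elim,
        fun x => (hno x).elim⟩
    exact toOrder hemp
  · exact toOrder hr

end Pool.Agent.D0H84.Galvin
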